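import Pool.Agent.H58.OVAC.Avg

set_option autoImplicit false

/-!
# [H22 MC Ent] Entropy: only few positions of a large set of tests are concentrated

`E` is a nonempty set of tests `z : P → V`, `dens E p` is the density (with respect to the uniform distribution on `V`) of the
law of `z p` when `z` is uniform in `E`. The expected number of positions `p` with `dens E p (z p) > t` is at most
`(log (1 / pr E) + |P|) / log t`.
-/

namespace Pool.H22.MC

open Pool.Agent.H58.OVAC (av pr)

variable {P V : Type} [Fintype P] [DecidableEq P] [Fintype V] [DecidableEq V]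

/-- the density at `a` of the law of `z p`, `z` uniform in `E` -/
noncomputable def dens (E : Finset (P → V)) (p : P) (a : V) : ℝ :=
  ((E.filter fun z => z p = a).card : ℝ) * Fintype.card V / E.card

theorem dens_nonneg (E : Finset (P → V)) (p : P) (a : V) : 0 ≤ dens E p a := by
  unfold dens
  positivity

theorem exists_of_dens_pos {E : Finset (P → V)} {p : P} {a : V} (h : 0 < dens E p a) :
    ∃ z ∈ E, z p = a := by
  by_contra hcon
  push Not at hcon
  have h1 : E.filter (fun z => z p = a) = ∅ := Finset.filter_eq_empty_iff.2 hcon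
  unfold dens at h
  rw [h1] at h
  simp at h

/-- expectation of a function of `z p` -/
theorem av_dens_mul {E : Finset (P → V)} (p : P) (f : V → ℝ) :
    av (fun a => dens E p a * f a) = (∑ z ∈ E, f (z p)) / E.card := by
  rcases isEmpty_or_nonempty V with hV | hV
  · have h1 : E = ∅ := by
      rw [Finset.eq_empty_iff_forall_notMem]
      intro z _
      exact hV.elim (z p)
    unfold av
    rw [h1]
    simp
  · have hV0 : (Fintype.card V : ℝ) ≠ 0 := by
      exact_mod_cast Fintype.card_ne_zero
    have h1 : ∑ z ∈ E, f (z p) = ∑ a : V, ((E.filter fun z => z p = a).card : ℝ) * f a := by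
      rw [← Finset.sum_fiberwise E (fun z => z p) fun z => f (z p)]
      refine Finset.sum_congr rfl fun a _ => ?_
      rw [Finset.sum_congr rfl (g := fun _ => f a) (fun z hz => by rw [(Finset.mem_filter.1 hz).2]),
        Finset.sum_const, nsmul_eq_mul]
    unfold av
    rw [h1, Finset.sum_div, Finset.sum_div]
    refine Finset.sum_congr rfl fun a _ => ?_
    unfold dens
    by_cases hE : (E.card : ℝ) = 0
    · rw [hE]
      simp
    · field_simp

/-- **Entropy.** If `E` has measure at least `exp (-B)` then the expected number of positions at which the density exceeds `t` is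
at most `(B + |P|) / log t`.

Proof. Put `L p a = log (dens E p a)`. For `z ∈ E` all `dens E p (z p)` are positive. Gibbs: with `λ_p (a) = dens E p a / |V|`
(a probability vector),
`∑ z ∈ E, log (|E| * ∏ p, λ_p (z p)) ≤ ∑ z ∈ E, (|E| * ∏ p, λ_p (z p) - 1) ≤ |E| * (∑ z, ∏ p, λ_p (z p)) - |E| = 0`
(`Real.log_le_sub_one_of_pos`, `Finset.prod_univ_sum` for `∏ p, ∑ a, λ_p a = 1`); so
`(1/|E|) ∑ z ∈ E, ∑ p, L p (z p) ≤ log (|V|^|P| / |E|) ≤ B`. For each `p`, the negative part:
`(1/|E|) ∑ z ∈ E, max 0 (- L p (z p)) ≤ (1/|E|) ∑ z ∈ E, 1 / dens E p (z p) = #{a : dens E p a > 0} / |V| ≤ 1`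
(`log x ≤ x`; use `av_dens_mul`). Since `log t * 1[t < dens] ≤ L + max 0 (-L)` (`t ≥ 1`), sum over `p` and average over `E`. -/
theorem entropy {E : Finset (P → V)} (hE : E.Nonempty) {t B : ℝ} (ht : 1 ≤ t)
    (hB : Real.exp (-B) * (Fintype.card V : ℝ) ^ Fintype.card P ≤ E.card) :
    (∑ z ∈ E, ((Finset.univ.filter fun p => t < dens E p (z p)).card : ℝ)) * Real.log t ≤
      (B + Fintype.card P) * E.card := by
  have hn : 0 < (E.card : ℝ) := by exact_mod_cast hE.card_pos
  have hlt : 0 ≤ Real.log t := Real.log_nonneg ht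
  have hVp : P → 0 < (Fintype.card V : ℝ) := by
    intro p
    obtain ⟨z, _⟩ := hE
    have h1 : Nonempty V := ⟨z p⟩
    exact_mod_cast Fintype.card_pos
  have hpos : ∀ z ∈ E, ∀ p, 0 < dens E p (z p) := by
    intro z hz p
    have h0 : z ∈ E.filter fun y => y p = z p := Finset.mem_filter.2 ⟨hz, rfl⟩
    have h1 : 0 < ((E.filter fun y => y p = z p).card : ℝ) := by
      exact_mod_cast Finset.card_pos.2 ⟨z, h0⟩
    have h2 := hVp p
    unfold dens
    positivity
  have hsum1 : ∀ p, ∑ a, dens E p a / Fintype.card V = 1 := by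
    intro p
    have h1 := av_dens_mul (E := E) p fun _ => 1
    unfold av at h1
    simp only [mul_one, Finset.sum_const, nsmul_eq_mul] at h1
    rw [div_self hn.ne'] at h1
    rw [← Finset.sum_div]
    exact h1
  have hS : ∑ z : P → V, ∏ p, (dens E p (z p) / Fintype.card V) = 1 := by
    have h1 := Finset.prod_univ_sum (fun _ : P => (Finset.univ : Finset V))
      (fun p a => dens E p a / Fintype.card V)
    rw [Fintype.piFinset_univ] at h1
    rw [← h1]
    exact Finset.prod_eq_one fun p _ => hsum1 p
  have hlam : ∀ z ∈ E, 0 < ∏ p, (dens E p (z p) / Fintype.card V) := fun z hz =>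
    Finset.prod_pos fun p _ => div_pos (hpos z hz p) (hVp p)
  -- Gibbs
  have hG : ∑ z ∈ E, Real.log (E.card * ∏ p, (dens E p (z p) / Fintype.card V)) ≤ 0 := by
    calc ∑ z ∈ E, Real.log (E.card * ∏ p, (dens E p (z p) / Fintype.card V))
        ≤ ∑ z ∈ E, (E.card * ∏ p, (dens E p (z p) / Fintype.card V) - 1) :=
          Finset.sum_le_sum fun z hz => Real.log_le_sub_one_of_pos (mul_pos hn (hlam z hz))
      _ = E.card * ∑ z ∈ E, ∏ p, (dens E p (z p) / Fintype.card V) - E.card := by
          rw [Finset.sum_sub_distrib, ← Finset.mul_sum, Finset.sum_const, nsmul_eq_mul, mul_one]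
      _ ≤ E.card * 1 - E.card := by
          refine sub_le_sub_right (mul_le_mul_of_nonneg_left ?_ hn.le) _
          rw [← hS]
          refine Finset.sum_le_sum_of_subset_of_nonneg (Finset.subset_univ _) fun z _ _ => ?_
          exact Finset.prod_nonneg fun p _ => div_nonneg (dens_nonneg E p _) (Nat.cast_nonneg _)
      _ = 0 := by ring
  have hG2 : ∀ z ∈ E, Real.log (E.card * ∏ p, (dens E p (z p) / Fintype.card V)) =
      Real.log E.card + (∑ p, Real.log (dens E p (z p)) - Fintype.card P * Real.log (Fintype.card V)) := by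
    intro z hz
    rw [Real.log_mul hn.ne' (hlam z hz).ne', Real.log_prod (fun p _ => (div_pos (hpos z hz p) (hVp p)).ne')]
    congr 1
    rw [Finset.sum_congr rfl (fun p _ => Real.log_div (hpos z hz p).ne' (hVp p).ne'), Finset.sum_sub_distrib,
      Finset.sum_const, Finset.card_univ, nsmul_eq_mul]
  rw [Finset.sum_congr rfl hG2, Finset.sum_add_distrib, Finset.sum_sub_distrib, Finset.sum_const,
    Finset.sum_const, nsmul_eq_mul, nsmul_eq_mul] at hG
  have hVP : 0 < (Fintype.card V : ℝ) ^ Fintype.card P := by
    rcases isEmpty_or_nonempty P with hP | ⟨⟨p⟩⟩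
    · rw [Fintype.card_eq_zero (α := P), pow_zero]
      exact zero_lt_one
    · exact pow_pos (hVp p) _
  have hB2 : -B + Fintype.card P * Real.log (Fintype.card V) ≤ Real.log E.card := by
    have h1 := Real.log_le_log (mul_pos (Real.exp_pos (-B)) hVP) hB
    rwa [Real.log_mul (Real.exp_pos _).ne' hVP.ne', Real.log_exp, Real.log_pow] at h1
  have hL : ∑ z ∈ E, ∑ p, Real.log (dens E p (z p)) ≤ E.card * B := by
    have h1 : (E.card : ℝ) * (-B + Fintype.card P * Real.log (Fintype.card V)) ≤ E.card * Real.log E.card :=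
      mul_le_mul_of_nonneg_left hB2 hn.le
    linarith
  -- the negative part
  have hneg : ∀ p, ∑ z ∈ E, max 0 (-Real.log (dens E p (z p))) ≤ E.card := by
    intro p
    have h1 : ∑ z ∈ E, max 0 (-Real.log (dens E p (z p))) ≤ ∑ z ∈ E, (dens E p (z p))⁻¹ := by
      refine Finset.sum_le_sum fun z hz => ?_
      have h2 := hpos z hz p
      refine max_le (inv_nonneg.2 h2.le) ?_
      rw [← Real.log_inv]
      have h3 := Real.log_le_sub_one_of_pos (inv_pos.2 h2)
      linarith
    have h2 := av_dens_mul (E := E) p fun a => (dens E p a)⁻¹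
    have h3 : av (fun a => dens E p a * (dens E p a)⁻¹) ≤ 1 := by
      obtain ⟨z, _⟩ := hE
      have h4 : Nonempty V := ⟨z p⟩
      refine Pool.Agent.H58.OVAC.av_le fun a => ?_
      by_cases h5 : dens E p a = 0
      · rw [h5]
        simp
      · rw [mul_inv_cancel₀ h5]
    rw [h2, div_le_one hn] at h3
    exact h1.trans h3
  have hN : ∑ z ∈ E, ∑ p, max 0 (-Real.log (dens E p (z p))) ≤ Fintype.card P * E.card := by
    rw [Finset.sum_comm]
    refine (Finset.sum_le_sum fun p _ => hneg p).trans ?_
    rw [Finset.sum_const, Finset.card_univ, nsmul_eq_mul]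
  have hmain : ∀ z ∈ E, ((Finset.univ.filter fun p => t < dens E p (z p)).card : ℝ) * Real.log t ≤
      ∑ p, Real.log (dens E p (z p)) + ∑ p, max 0 (-Real.log (dens E p (z p))) := by
    intro z hz
    rw [← Finset.sum_add_distrib, Finset.natCast_card_filter, Finset.sum_mul]
    refine Finset.sum_le_sum fun p _ => ?_
    have h2 := hpos z hz p
    split_ifs with h3
    · rw [one_mul]
      have h4 := Real.log_le_log (by linarith) h3.le
      have h5 := le_max_left 0 (-Real.log (dens E p (z p)))
      linarith
    · rw [zero_mul]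
      have h5 := le_max_right 0 (-Real.log (dens E p (z p)))
      linarith
  rw [Finset.sum_mul]
  refine (Finset.sum_le_sum hmain).trans ?_
  rw [Finset.sum_add_distrib]
  linarith

end Pool.H22.MC
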