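import Pool.Agent.H22.MC.Fou

set_option autoImplicit false

/-!
# [H22 MC Fob] The Bessel inequality for the frame and the number of indices of small degree
-/

namespace Pool.H22.MC

open Pool.Agent.H58.OVAC (av pr Str Off)
open Pool.Agent.H58.OVPR (avR)

variable {k D : ℕ}

/-- Bessel for the frame: synthesis does not increase the norm. Proof: `h = ∑ α ∈ I, r α * ph α`; `av (h^2) = ∑ α ∈ I, r α * hat h α
≤ (∑ r^2)^(1/2) (∑ (hat h)^2)^(1/2) ≤ (∑ r^2)^(1/2) (av (h^2))^(1/2)` by `parseval`. -/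
theorem bessel (hk : 1 ≤ k) (I : Finset (Ix k D)) (r : Ix k D → ℝ) :
    av (fun u => (∑ α ∈ I, r α * ph α u) ^ 2) ≤ ∑ α ∈ I, r α ^ 2 := by
  obtain ⟨h, hh⟩ : ∃ h : Str k D → ℝ, h = fun u => ∑ α ∈ I, r α * ph α u := ⟨_, rfl⟩
  obtain ⟨A, hA⟩ : ∃ A : ℝ, A = av fun u => h u * h u := ⟨_, rfl⟩
  have e0 : av (fun u => (∑ α ∈ I, r α * ph α u) ^ 2) = A := by
    rw [hA, hh]
    exact Pool.Agent.H58.OVAC.av_congr fun u => by ring
  have e1 : A = ∑ α ∈ I, r α * hat h α := by
    have e2 : A = av fun u => ∑ α ∈ I, r α * (h u * ph α u) := by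
      rw [hA]
      refine Pool.Agent.H58.OVAC.av_congr fun u => ?_
      have e3 : h u = ∑ α ∈ I, r α * ph α u := by rw [hh]
      conv_lhs => rhs; rw [e3]
      rw [Finset.mul_sum]
      exact Finset.sum_congr rfl fun α _ => by ring
    rw [e2, Pool.Agent.H58.OVAC.av_sum]
    refine Finset.sum_congr rfl fun α _ => ?_
    rw [Pool.Agent.H58.OVAC.av_mul_left]
    rfl
  have hA0 : 0 ≤ A := by
    rw [hA]
    exact Pool.Agent.H58.OVAC.av_nonneg fun u => mul_self_nonneg _
  have h1 : A ^ 2 ≤ (∑ α ∈ I, r α ^ 2) * ∑ α ∈ I, hat h α ^ 2 := by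
    rw [e1]
    exact Finset.sum_mul_sq_le_sq_mul_sq I r (hat h)
  have h2 : ∑ α ∈ I, hat h α ^ 2 ≤ A := by
    rw [hA, ← parseval hk h h]
    refine (Finset.sum_le_sum_of_subset_of_nonneg (Finset.subset_univ I) fun _ _ _ => sq_nonneg _).trans
      (le_of_eq (Finset.sum_congr rfl fun α _ => ?_))
    ring
  have hR : 0 ≤ ∑ α ∈ I, r α ^ 2 := Finset.sum_nonneg fun _ _ => sq_nonneg _
  rw [e0]
  rcases hA0.eq_or_lt with h3 | h3
  · rw [← h3]
    exact hR
  · have h4 : A ^ 2 ≤ (∑ α ∈ I, r α ^ 2) * A := h1.trans (mul_le_mul_of_nonneg_left h2 hR)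
    rw [sq] at h4
    exact le_of_mul_le_mul_right h4 h3

/-- the number of indices of degree at most `d`: for `0 < x ≤ 1` it is at most `∑ α, x ^ (dg α - d)
= x ^ (-d) * (1 + k x) ^ D ≤ x ^ (-d) * exp (k x D)` -/
theorem card_low {x : ℝ} (hx : 0 < x) (hx1 : x ≤ 1) (d : ℕ) :
    ((Finset.univ.filter fun α : Ix k D => dg α ≤ d).card : ℝ) ≤
      (1 / x) ^ d * Real.exp (k * x * D) := by
  classical
  have h1 : ∀ α : Ix k D, x ^ dg α = ∏ i, (if α i = none then (1 : ℝ) else x) := by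
    intro α
    rw [Finset.prod_ite, Finset.prod_const_one, one_mul, Finset.prod_const]
    rfl
  have h2 : ∑ α : Ix k D, x ^ dg α = (1 + k * x) ^ D := by
    have h3 := Finset.prod_univ_sum (fun _ : Fin D => (Finset.univ : Finset (Option (Fin k))))
      (fun _ o => if o = none then (1 : ℝ) else x)
    rw [Fintype.piFinset_univ] at h3
    rw [Finset.sum_congr rfl fun α _ => h1 α, ← h3]
    have h4 : ∑ o : Option (Fin k), (if o = none then (1 : ℝ) else x) = 1 + k * x := by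
      rw [Fintype.sum_option]
      simp
    rw [h4, Finset.prod_const, Finset.card_univ, Fintype.card_fin]
  have h5 : ((Finset.univ.filter fun α : Ix k D => dg α ≤ d).card : ℝ) ≤ ∑ α : Ix k D, (1 / x) ^ d * x ^ dg α := by
    have h6 : ((Finset.univ.filter fun α : Ix k D => dg α ≤ d).card : ℝ) =
        ∑ α ∈ Finset.univ.filter (fun α : Ix k D => dg α ≤ d), (1 : ℝ) := by simp
    rw [h6]
    refine (Finset.sum_le_sum fun α hα => ?_).trans
      (Finset.sum_le_sum_of_subset_of_nonneg (Finset.subset_univ _) fun _ _ _ => by positivity)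
    rw [Finset.mem_filter] at hα
    have h7 : x ^ d ≤ x ^ dg α := pow_le_pow_of_le_one hx.le hx1 hα.2
    have h8 : (1 / x) ^ d * x ^ d = 1 := by
      rw [← mul_pow, one_div_mul_cancel hx.ne', one_pow]
    have h9 : (1 / x) ^ d * x ^ d ≤ (1 / x) ^ d * x ^ dg α := mul_le_mul_of_nonneg_left h7 (by positivity)
    rwa [h8] at h9
  refine h5.trans ?_
  rw [← Finset.mul_sum, h2]
  refine mul_le_mul_of_nonneg_left ?_ (by positivity)
  have h9 : (1 + k * x : ℝ) ≤ Real.exp (k * x) := by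
    have := Real.add_one_le_exp (k * x : ℝ)
    linarith
  calc (1 + k * x : ℝ) ^ D ≤ Real.exp (k * x) ^ D := pow_le_pow_left₀ (by positivity) h9 D
    _ = Real.exp (k * x * D) := by rw [← Real.exp_nat_mul]; ring_nf

end Pool.H22.MC
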