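import Pool.Agent.H58.OVPR.Main

set_option autoImplicit false

/-!
# [H22 MC Fou] Harmonic analysis on strings: a tight frame, the channel of pairs which differ everywhere

For `c : Fin k` put `ψ_c (a) = √k (1[a = c] - 1/k)`, and `ψ_none = 1`. `∑_c ψ_c (a) ψ_c (b) = k 1[a = b] - 1`. For
`α : Fin D → Option (Fin k)` let `ph α (u) = ∏ i, ψ_(α i) (u i)`; `dg α` = number of `i` with `α i ≠ none`.
-/

namespace Pool.H22.MC

open Pool.Agent.H58.OVAC (av pr Str Off)
open Pool.Agent.H58.OVPR (avR)

variable {k D : ℕ}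

/-- the functions on the alphabet -/
noncomputable def ps (k : ℕ) : Option (Fin k) → Fin k → ℝ
  | none => fun _ => 1
  | some c => fun a => Real.sqrt k * ((if a = c then 1 else 0) - 1 / k)

/-- indices -/
abbrev Ix (k D : ℕ) : Type := Fin D → Option (Fin k)

/-- the functions on strings -/
noncomputable def ph (α : Ix k D) (u : Str k D) : ℝ := ∏ i, ps k (α i) (u i)

/-- the degree -/
def dg (α : Ix k D) : ℕ := (Finset.univ.filter fun i => α i ≠ none).card

/-- the coefficients -/
noncomputable def hat (f : Str k D → ℝ) (α : Ix k D) : ℝ := av fun u => f u * ph α u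

theorem ph_none (u : Str k D) : ph (fun _ => none) u = 1 := by
  unfold ph ps
  simp

theorem dg_none : dg (fun _ => none : Ix k D) = 0 := by
  unfold dg
  simp

theorem dg_pos {α : Ix k D} (h : α ≠ fun _ => none) : 1 ≤ dg α := by
  unfold dg
  rw [Nat.one_le_iff_ne_zero, Ne, Finset.card_eq_zero, Finset.filter_eq_empty_iff]
  intro h1
  apply h
  funext i
  have := h1 (Finset.mem_univ i)
  simpa using this

private theorem ps_sq (hk : 1 ≤ k) (o : Option (Fin k)) (a : Fin k) :
    ps k o a ^ 2 ≤ if o ≠ none then (k : ℝ) else 1 := by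
  have hk' : (1 : ℝ) ≤ k := by exact_mod_cast hk
  cases o with
  | none => simp [ps]
  | some c =>
    rw [if_pos (by simp)]
    unfold ps
    rw [mul_pow, Real.sq_sqrt (by linarith)]
    have h1 : ((if a = c then (1 : ℝ) else 0) - 1 / k) ^ 2 ≤ 1 := by
      have h2 : 0 < 1 / (k : ℝ) := by positivity
      have h3 : 1 / (k : ℝ) ≤ 1 := by
        rw [div_le_one (by linarith)]
        exact hk'
      rw [sq_le_one_iff_abs_le_one, abs_le]
      split_ifs
      · constructor <;> linarith
      · constructor <;> linarith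
    calc (k : ℝ) * ((if a = c then (1 : ℝ) else 0) - 1 / k) ^ 2 ≤ k * 1 :=
          mul_le_mul_of_nonneg_left h1 (by linarith)
      _ = k := mul_one _

private theorem prod_dg (α : Ix k D) (x : ℝ) : ∏ i, (if α i ≠ none then x else 1) = x ^ dg α := by
  unfold dg
  rw [Finset.prod_ite, Finset.prod_const, Finset.prod_const_one, mul_one]

/-- `|ps| ≤ √k`, so `ph α u ^ 2 ≤ k ^ dg α`. -/
theorem ph_sq_le (hk : 1 ≤ k) (α : Ix k D) (u : Str k D) : ph α u ^ 2 ≤ (k : ℝ) ^ dg α := by
  rw [← prod_dg, ph, ← Finset.prod_pow]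
  exact Finset.prod_le_prod (fun i _ => sq_nonneg _) fun i _ => ps_sq hk (α i) (u i)

private theorem kern1 (hk : 1 ≤ k) (x : ℝ) (a b : Fin k) :
    ∑ o : Option (Fin k), (if o ≠ none then x else 1) * (ps k o a * ps k o b) =
      1 + x * (k * (if a = b then 1 else 0) - 1) := by
  have hk' : (0 : ℝ) < k := by
    have : (1 : ℝ) ≤ k := by exact_mod_cast hk
    linarith
  rw [Fintype.sum_option]
  have h1 : (if (none : Option (Fin k)) ≠ none then x else 1) * (ps k none a * ps k none b) = 1 := by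
    simp [ps]
  rw [h1]
  congr 1
  have h2 : ∀ c : Fin k, (if some c ≠ none then x else 1) * (ps k (some c) a * ps k (some c) b) =
      x * (k * (((if a = c then (1 : ℝ) else 0) - 1 / k) * ((if b = c then (1 : ℝ) else 0) - 1 / k))) := by
    intro c
    rw [if_pos (by simp)]
    unfold ps
    have h3 : Real.sqrt k * Real.sqrt k = k := Real.mul_self_sqrt hk'.le
    linear_combination x * (((if a = c then (1 : ℝ) else 0) - 1 / k) * ((if b = c then (1 : ℝ) else 0) - 1 / k)) * h3
  simp only [h2]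
  rw [← Finset.mul_sum]
  congr 1
  have h4 : ∀ c : Fin k, (k : ℝ) * (((if a = c then (1 : ℝ) else 0) - 1 / k) * ((if b = c then (1 : ℝ) else 0) - 1 / k)) =
      k * (if a = c then (if b = c then (1 : ℝ) else 0) else 0) - (if a = c then (1 : ℝ) else 0) -
        (if b = c then (1 : ℝ) else 0) + 1 / k := by
    intro c
    split_ifs <;> field_simp <;> ring
  simp only [h4]
  rw [Finset.sum_add_distrib, Finset.sum_sub_distrib, Finset.sum_sub_distrib, ← Finset.mul_sum]
  rw [Finset.sum_ite_eq, Finset.sum_ite_eq, Finset.sum_ite_eq]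
  simp only [Finset.mem_univ, if_true, Finset.sum_const, Finset.card_univ, Fintype.card_fin, nsmul_eq_mul]
  have h5 : (k : ℝ) * (1 / k) = 1 := by field_simp
  rw [h5]
  have h6 : (if b = a then (1 : ℝ) else 0) = if a = b then 1 else 0 := by
    simp only [eq_comm]
  rw [h6]
  ring

/-- `∑ α, x ^ dg α * ph α u * ph α v = ∏ i, (1 + x * (k * 1[u i = v i] - 1))` (`Finset.prod_univ_sum`). -/
theorem kernel (hk : 1 ≤ k) (x : ℝ) (u v : Str k D) :
    ∑ α : Ix k D, x ^ dg α * (ph α u * ph α v) =
      ∏ i, (1 + x * (k * (if u i = v i then 1 else 0) - 1)) := by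
  have h1 : ∀ i, (1 + x * (k * (if u i = v i then 1 else 0) - 1)) =
      ∑ o ∈ (Finset.univ : Finset (Option (Fin k))), (if o ≠ none then x else 1) * (ps k o (u i) * ps k o (v i)) :=
    fun i => (kern1 hk x (u i) (v i)).symm
  simp only [h1]
  rw [Finset.prod_univ_sum, Fintype.piFinset_univ]
  refine Finset.sum_congr rfl fun α _ => ?_
  rw [← prod_dg, ph, ph, ← Finset.prod_mul_distrib, ← Finset.prod_mul_distrib]

private theorem ker_sum (hk : 1 ≤ k) (x : ℝ) (f g : Str k D → ℝ) :
    ∑ α : Ix k D, x ^ dg α * (hat f α * hat g α) =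
      (∑ u, ∑ v, f u * g v * ∏ i, (1 + x * (k * (if u i = v i then 1 else 0) - 1))) /
        ((k : ℝ) ^ D * (k : ℝ) ^ D) := by
  have hN : ((Fintype.card (Str k D) : ℕ) : ℝ) = (k : ℝ) ^ D := by
    simp [Fintype.card_fin]
  have h1 : ∀ α : Ix k D, x ^ dg α * (hat f α * hat g α) =
      (∑ u, ∑ v, f u * g v * (x ^ dg α * (ph α u * ph α v))) / ((k : ℝ) ^ D * (k : ℝ) ^ D) := by
    intro α
    unfold hat av
    rw [hN, div_mul_div_comm, ← mul_div_assoc, Finset.sum_mul_sum, Finset.mul_sum]
    congr 1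
    refine Finset.sum_congr rfl fun u _ => ?_
    rw [Finset.mul_sum]
    refine Finset.sum_congr rfl fun v _ => ?_
    ring
  simp only [h1]
  rw [← Finset.sum_div]
  congr 1
  rw [Finset.sum_comm]
  refine Finset.sum_congr rfl fun u _ => ?_
  rw [Finset.sum_comm]
  refine Finset.sum_congr rfl fun v _ => ?_
  rw [← Finset.mul_sum, kernel hk]

/-- Parseval, from `kernel` with `x = 1`: the kernel is `k ^ D * 1[u = v]`. -/
theorem parseval (hk : 1 ≤ k) (f g : Str k D → ℝ) :
    ∑ α : Ix k D, hat f α * hat g α = av fun u => f u * g u := by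
  have hk' : (0 : ℝ) < k := by
    have : (1 : ℝ) ≤ k := by exact_mod_cast hk
    linarith
  have h1 := ker_sum hk 1 f g
  simp only [one_pow, one_mul] at h1
  rw [h1]
  have h2 : ∀ u v : Str k D, ∏ i, (1 + ((k : ℝ) * (if u i = v i then 1 else 0) - 1)) =
      if u = v then (k : ℝ) ^ D else 0 := by
    intro u v
    split_ifs with h
    · subst h
      simp
    · obtain ⟨i, hi⟩ := Function.ne_iff.1 h
      refine Finset.prod_eq_zero (Finset.mem_univ i) ?_
      rw [if_neg hi]
      ring
  simp only [h2]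
  simp only [mul_ite, mul_zero, Finset.sum_ite_eq, Finset.mem_univ, if_true]
  unfold av
  have hN : ((Fintype.card (Str k D) : ℕ) : ℝ) = (k : ℝ) ^ D := by
    simp [Fintype.card_fin]
  rw [hN, ← Finset.sum_mul, mul_div_mul_right _ _ (by positivity)]

/-- The channel: from `kernel` with `x = -1/(k-1)`: `1 + x * (k * 1[a = b] - 1) = k / (k - 1) * 1[a ≠ b]`, so the kernel is
`(k/(k-1))^D * 1[Off u v]`, and `avR = (sum over off pairs) / (k (k-1))^D`. -/
theorem avR_eq (hk : 2 ≤ k) (f g : Str k D → ℝ) :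
    avR (fun a b => f a * g b) =
      ∑ α : Ix k D, (-(1 / ((k : ℝ) - 1))) ^ dg α * (hat f α * hat g α) := by
  have hk' : (2 : ℝ) ≤ k := by exact_mod_cast hk
  have hk1 : (k : ℝ) - 1 ≠ 0 := by linarith
  have hk0 : (k : ℝ) ≠ 0 := by linarith
  rw [ker_sum (by omega)]
  have h2 : ∀ u v : Str k D, ∏ i, (1 + -(1 / ((k : ℝ) - 1)) * ((k : ℝ) * (if u i = v i then 1 else 0) - 1)) =
      if Off u v then ((k : ℝ) / (k - 1)) ^ D else 0 := by
    intro u v
    split_ifs with h
    · have h3 : ∀ i : Fin D, (1 + -(1 / ((k : ℝ) - 1)) * ((k : ℝ) * (if u i = v i then 1 else 0) - 1)) =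
          (k : ℝ) / (k - 1) := by
        intro i
        rw [if_neg (h i)]
        field_simp
        ring
      simp only [h3]
      rw [Finset.prod_const, Finset.card_univ, Fintype.card_fin]
    · obtain ⟨i, hi⟩ : ∃ i, u i = v i := by
        by_contra hc
        exact h fun i hi => hc ⟨i, hi⟩
      refine Finset.prod_eq_zero (Finset.mem_univ i) ?_
      rw [if_pos hi]
      field_simp
      ring
  simp only [h2]
  unfold avR
  have h3 : ∀ u v : Str k D, f u * g v * (if Off u v then ((k : ℝ) / (k - 1)) ^ D else 0) =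
      (if Off u v then f u * g v else 0) * ((k : ℝ) / (k - 1)) ^ D := by
    intro u v
    split_ifs <;> ring
  simp only [h3]
  simp only [← Finset.sum_mul]
  rw [mul_pow, div_pow]
  have h4 : (k : ℝ) ^ D ≠ 0 := pow_ne_zero _ hk0
  have h5 : ((k : ℝ) - 1) ^ D ≠ 0 := pow_ne_zero _ hk1
  field_simp

end Pool.H22.MC
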