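import Pool.Agent.H91.MN.Hist

set_option autoImplicit false
set_option maxHeartbeats 4000000
set_option linter.unusedSectionVars false

/-!
# [H22 MC Hi] Every large set of tests contains a large subset with a common cheap history
-/

namespace Pool.H22.MC

open Pool.Agent.H58.OVAC
open Pool.Agent.H91.MN

variable {P X : Type} {G : ℕ} [Fintype P] [DecidableEq P] [Fintype X] [Nonempty X]

theorem hist2 (N : Net P X G) {m : ℝ} (hG : 1 ≤ G) (hm : 0 < m) (E : (P → X) → Prop)
    (hE : 4 * Real.sqrt m < pr E) : ∃ σ : St P X G,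
      (m ≤ pr fun z : P → X => E z ∧ go N ((1 / (2 * G : ℝ)) ^ 2) z G = σ) ∧
      ∀ z : P → X, go N ((1 / (2 * G : ℝ)) ^ 2) z G = σ →
        (∀ p, z p ∉ σ.Φ p) ∧ ∀ g, Law N ((1 / (2 * G : ℝ)) ^ 2) z σ g := by
  classical
  have hG' : (1 : ℝ) ≤ G := by exact_mod_cast hG
  set τ : ℝ := (1 / (2 * G : ℝ)) ^ 2 with hτdef
  have hτ : 0 < τ := by positivity
  have hle : 1 / (2 * G : ℝ) ≤ 1 := by
    rw [div_le_one (by positivity)]
    linarith
  have hτ1 : τ ≤ 1 := pow_le_one₀ (by positivity) hle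
  have hsq : Real.sqrt τ = 1 / (2 * G : ℝ) := Real.sqrt_sq (by positivity)
  have h1 := bad_le N hτ hτ1 hm.le
  have h2 : (1 + Real.sqrt τ) ^ G ≤ 2 := by
    rw [hsq]
    have h3 : 1 + 1 / (2 * G : ℝ) ≤ Real.exp (1 / (2 * G : ℝ)) := by
      have := Real.add_one_le_exp (1 / (2 * G : ℝ))
      linarith
    calc (1 + 1 / (2 * G : ℝ)) ^ G ≤ Real.exp (1 / (2 * G : ℝ)) ^ G :=
          pow_le_pow_left₀ (by positivity) h3 G
      _ = Real.exp (1 / 2) := by
          rw [← Real.exp_nat_mul]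
          congr 1
          field_simp
      _ ≤ 2 := by
          have h4 : Real.exp (1 / 2) ^ 2 ≤ 2 ^ 2 := by
            rw [← Real.exp_nat_mul]
            norm_num
            have := Real.exp_one_lt_d9
            linarith
          exact le_of_sq_le_sq h4 (by norm_num)
  have hsm : 0 < Real.sqrt m := Real.sqrt_pos.2 hm
  have hmm : Real.sqrt m * Real.sqrt m = m := Real.mul_self_sqrt hm.le
  by_contra hcon
  push Not at hcon
  have h3 : ∀ σ ∈ reach N τ G, (pr fun z : P → X => E z ∧ go N τ z G = σ) < m := by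
    intro σ hσ
    by_contra h4
    obtain ⟨z, hz, h5⟩ := hcon σ (not_lt.1 h4)
    obtain ⟨i1, i2, -⟩ := go_inv N hτ hτ1 z G
    rw [hz] at i1 i2
    obtain ⟨g, hg⟩ := h5 i1
    exact hg (i2 g g.2)
  set R := (reach N τ G).filter fun σ => m < surv σ.Φ with hR
  have h4 : (R.card : ℝ) * Real.sqrt m ≤ 2 := by
    refine le_trans ?_ ((weight N hτ.le G le_rfl).trans h2)
    rw [← nsmul_eq_mul]
    refine (Finset.card_nsmul_le_sum R (fun σ => Real.sqrt (surv σ.Φ)) _ fun σ hσ => ?_).trans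
      (Finset.sum_le_sum_of_subset_of_nonneg (Finset.filter_subset _ _) fun _ _ _ =>
        Real.sqrt_nonneg _)
    exact Real.sqrt_le_sqrt (Finset.mem_filter.1 hσ).2.le
  have h5 : pr E ≤ (pr fun z : P → X => surv (go N τ z G).Φ ≤ m) +
      pr (fun z : P → X => ∃ σ ∈ R, E z ∧ go N τ z G = σ) := by
    refine le_trans (pr_mono fun z hz => ?_) (pr_or_le _ _)
    by_cases h6 : surv (go N τ z G).Φ ≤ m
    · exact Or.inl h6
    · right
      refine ⟨go N τ z G, ?_, hz, rfl⟩
      rw [hR, Finset.mem_filter]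
      exact ⟨Finset.mem_image_of_mem _ (Finset.mem_univ z), not_le.1 h6⟩
  have h6 : pr (fun z : P → X => ∃ σ ∈ R, E z ∧ go N τ z G = σ) ≤ R.card * m := by
    refine (pr_exists_le _ _).trans ?_
    rw [← nsmul_eq_mul]
    refine Finset.sum_le_card_nsmul _ _ _ fun σ hσ => ?_
    exact (h3 σ (Finset.mem_filter.1 hσ).1).le
  have h7 : (R.card : ℝ) * m ≤ 2 * Real.sqrt m := by
    calc (R.card : ℝ) * m = (R.card * Real.sqrt m) * Real.sqrt m := by rw [mul_assoc, hmm]
      _ ≤ 2 * Real.sqrt m := mul_le_mul_of_nonneg_right h4 hsm.le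
  have h8 : Real.sqrt m * (1 + Real.sqrt τ) ^ G ≤ Real.sqrt m * 2 :=
    mul_le_mul_of_nonneg_left h2 hsm.le
  linarith

end Pool.H22.MC
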