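import Pool.Agent.H22.MC.Typ

set_option autoImplicit false

/-!
# [H22 MC Sub] Sub-samples of a typical sample
-/

namespace Pool.H22.MC

open Pool.Agent.H58.OVAC (av pr)

variable {ι V : Type} [Fintype V] {n : ℕ}

/-- Cauchy-Schwarz for the error part -/
private theorem sub_cs (I : Finset ι) (G : ι → ι → ℝ) {θ : ℝ} (hθ : 0 ≤ θ)
    (hG : ∑ α ∈ I, ∑ β ∈ I, G α β ^ 2 ≤ θ ^ 2) (v : ι → ℝ) :
    ∑ α ∈ I, ∑ β ∈ I, v α * v β * G α β ≤ θ * ∑ α ∈ I, v α ^ 2 := by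
  have h1 : ∑ α ∈ I, ∑ β ∈ I, v α * v β * G α β = ∑ q ∈ I ×ˢ I, (v q.1 * v q.2) * G q.1 q.2 := by
    rw [Finset.sum_product]
  have h2 := Finset.sum_mul_sq_le_sq_mul_sq (I ×ˢ I) (fun q => v q.1 * v q.2) (fun q => G q.1 q.2)
  have h3 : ∑ q ∈ I ×ˢ I, (v q.1 * v q.2) ^ 2 = (∑ α ∈ I, v α ^ 2) ^ 2 := by
    rw [Finset.sum_product, sq (∑ α ∈ I, v α ^ 2), Finset.sum_mul_sum]
    refine Finset.sum_congr rfl fun α _ => Finset.sum_congr rfl fun β _ => ?_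
    rw [mul_pow]
  have h4 : ∑ q ∈ I ×ˢ I, G q.1 q.2 ^ 2 = ∑ α ∈ I, ∑ β ∈ I, G α β ^ 2 := by
    rw [Finset.sum_product]
  rw [h3, h4] at h2
  have h5 : 0 ≤ ∑ α ∈ I, v α ^ 2 := Finset.sum_nonneg fun α _ => sq_nonneg _
  rw [h1]
  refine (le_abs_self _).trans (abs_le_of_sq_le_sq ?_ (mul_nonneg hθ h5))
  calc (∑ q ∈ I ×ˢ I, (v q.1 * v q.2) * G q.1 q.2) ^ 2 ≤
      (∑ α ∈ I, v α ^ 2) ^ 2 * ∑ α ∈ I, ∑ β ∈ I, G α β ^ 2 := h2
    _ ≤ (∑ α ∈ I, v α ^ 2) ^ 2 * θ ^ 2 := mul_le_mul_of_nonneg_left hG (sq_nonneg _)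
    _ = (θ * ∑ α ∈ I, v α ^ 2) ^ 2 := by ring

/-- **Sub-samples of a typical sample.** Let `z` be typical and `h` be Bessel. For weights `t` the vector
`v α = (1/n) ∑ x, t x * φ α (z x)` satisfies `∑ α ∈ I, v α ^ 2 ≤ (1 + θ) * (1/n) ∑ x, t x ^ 2`.

Proof. `∑ v^2 = (1/n) ∑ x, t x * (∑ α, v α φ α (z x)) ≤ ((1/n) ∑ t^2)^(1/2) * ((1/n) ∑ x, (∑ α, v α φ α (z x))^2)^(1/2)`
and `(1/n) ∑ x, (∑ α, v α φ α (z x))^2 = ∑ α β, v α v β (gram α β + av (φ α φ β)) ≤ (θ + 1) ∑ v^2` (Cauchy-Schwarz and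
`hbes`). -/
theorem sub_le [Nonempty V] (hn : 0 < n) (I : Finset ι) (φ : ι → V → ℝ) {θ : ℝ} (hθ : 0 ≤ θ)
    (hbes : ∀ r : ι → ℝ, av (fun a => (∑ α ∈ I, r α * φ α a) ^ 2) ≤ ∑ α ∈ I, r α ^ 2)
    {z : Fin n → V} (hz : ∑ α ∈ I, ∑ β ∈ I, gram φ z α β ^ 2 ≤ θ ^ 2) (t : Fin n → ℝ) :
    ∑ α ∈ I, ((∑ x, t x * φ α (z x)) / n) ^ 2 ≤ (1 + θ) * ((∑ x, t x ^ 2) / n) := by
  obtain ⟨v, hv⟩ : ∃ v : ι → ℝ, ∀ α, v α = (∑ x, t x * φ α (z x)) / n := ⟨_, fun α => rfl⟩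
  obtain ⟨g, hg⟩ : ∃ g : Fin n → ℝ, ∀ x, g x = ∑ α ∈ I, v α * φ α (z x) := ⟨_, fun x => rfl⟩
  have hn0 : (0 : ℝ) < n := by exact_mod_cast hn
  have hgoal : ∑ α ∈ I, ((∑ x, t x * φ α (z x)) / n) ^ 2 = ∑ α ∈ I, v α ^ 2 :=
    Finset.sum_congr rfl fun α _ => by rw [hv]
  rw [hgoal]
  obtain ⟨S, hS⟩ : ∃ S, S = ∑ α ∈ I, v α ^ 2 := ⟨_, rfl⟩
  obtain ⟨U, hU⟩ : ∃ U, U = (∑ x, t x ^ 2) / n := ⟨_, rfl⟩
  have hS0 : 0 ≤ S := by rw [hS]; exact Finset.sum_nonneg fun α _ => sq_nonneg _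
  have hU0 : 0 ≤ U := by rw [hU]; exact div_nonneg (Finset.sum_nonneg fun x _ => sq_nonneg _) hn0.le
  -- (1) `n S = ∑ t g`
  have h1 : n * S = ∑ x, t x * g x := by
    have h2 : ∀ α ∈ I, (n : ℝ) * v α ^ 2 = ∑ x, t x * (v α * φ α (z x)) := by
      intro α _
      have h3 : (n : ℝ) * v α = ∑ x, t x * φ α (z x) := by
        rw [hv, mul_div_cancel₀ _ hn0.ne']
      rw [sq, ← mul_assoc, h3, Finset.sum_mul]
      exact Finset.sum_congr rfl fun x _ => by ring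
    rw [hS, Finset.mul_sum, Finset.sum_congr rfl h2, Finset.sum_comm]
    refine Finset.sum_congr rfl fun x _ => ?_
    rw [hg, Finset.mul_sum]
  -- (2) `∑ g ^ 2 ≤ n (1 + θ) S`
  have h2 : ∑ x, g x ^ 2 ≤ n * ((1 + θ) * S) := by
    have h3 : ∑ x, g x ^ 2 = n * (∑ α ∈ I, ∑ β ∈ I, v α * v β * gram φ z α β) +
        n * (∑ α ∈ I, ∑ β ∈ I, v α * v β * av fun a => φ α a * φ β a) := by
      rw [← mul_add, ← Finset.sum_add_distrib]
      have h4 : ∀ x, g x ^ 2 = ∑ α ∈ I, ∑ β ∈ I, v α * v β * (φ α (z x) * φ β (z x)) := by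
        intro x
        rw [hg, sq, Finset.sum_mul_sum]
        exact Finset.sum_congr rfl fun α _ => Finset.sum_congr rfl fun β _ => by ring
      rw [Finset.sum_congr rfl fun x _ => h4 x, Finset.sum_comm, Finset.mul_sum]
      refine Finset.sum_congr rfl fun α _ => ?_
      rw [Finset.sum_comm, ← Finset.sum_add_distrib, Finset.mul_sum]
      refine Finset.sum_congr rfl fun β _ => ?_
      rw [← Finset.mul_sum, ← mul_add, gram, sub_add_cancel]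
      field_simp
    have h4 := sub_cs I (fun α β => gram φ z α β) hθ hz v
    have h5 : (∑ α ∈ I, ∑ β ∈ I, v α * v β * av fun a => φ α a * φ β a) =
        av fun a => (∑ α ∈ I, v α * φ α a) ^ 2 := by
      have h6 : ∀ a, (∑ α ∈ I, v α * φ α a) ^ 2 =
          ∑ α ∈ I, ∑ β ∈ I, v α * v β * (φ α a * φ β a) := by
        intro a
        rw [sq, Finset.sum_mul_sum]
        exact Finset.sum_congr rfl fun α _ => Finset.sum_congr rfl fun β _ => by ring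
      have h7 : (av fun a => (∑ α ∈ I, v α * φ α a) ^ 2) =
          av fun a => ∑ α ∈ I, ∑ β ∈ I, v α * v β * (φ α a * φ β a) := by
        congr 1
        funext a
        exact h6 a
      rw [h7, Pool.Agent.H58.OVAC.av_sum]
      refine Finset.sum_congr rfl fun α _ => ?_
      rw [Pool.Agent.H58.OVAC.av_sum]
      refine Finset.sum_congr rfl fun β _ => ?_
      rw [Pool.Agent.H58.OVAC.av_mul_left]
    have h6 := hbes v
    rw [h3, h5, ← mul_add]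
    apply mul_le_mul_of_nonneg_left _ hn0.le
    rw [← hS] at h4 h6
    linarith
  have h3 := Finset.sum_mul_sq_le_sq_mul_sq Finset.univ t g
  rw [← h1] at h3
  have hT : ∑ x, t x ^ 2 = n * U := by rw [hU, mul_div_cancel₀ _ hn0.ne']
  rw [hT] at h3
  rw [← hU, ← hS]
  by_cases hS1 : S = 0
  · rw [hS1]
    positivity
  · have hSp : 0 < S := lt_of_le_of_ne hS0 (Ne.symm hS1)
    have h4 : (n * S) ^ 2 ≤ n * U * (n * ((1 + θ) * S)) :=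
      h3.trans (mul_le_mul_of_nonneg_left h2 (by positivity))
    have h5 : (n : ℝ) ^ 2 * S * S ≤ (n : ℝ) ^ 2 * S * ((1 + θ) * U) := by
      calc (n : ℝ) ^ 2 * S * S = (n * S) ^ 2 := by ring
        _ ≤ _ := h4
        _ = _ := by ring
    exact le_of_mul_le_mul_left h5 (by positivity)

end Pool.H22.MC
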