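import Pool.Agent.H22.MC.Ent
import Pool.Agent.H22.MC.Fob
import Pool.Agent.H22.MC.Sub
import Pool.Agent.H91.MN.Low

set_option autoImplicit false

/-!
# [H22 MC Key] Lemma K: typical tests which avoid a product set

`Typical d z`: for both lists of the full test `z` the sampled Gram matrix of the functions `ph α`, `dg α ≤ d`, is within `1/16`
(Frobenius norm) of the true one.
-/

namespace Pool.H22.MC

open Pool.Agent.H58.OVAC (av pr Str Off av_congr av_mul_left av_mul_right av_add av_sum av_const
  av_mono av_nonneg av_le pr_mono pr_exists_le pr_equiv pr_prod pr_nonneg)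
open Pool.Agent.H58.OVPR (avR avR_mono avR_sum avR_mul_left)
open Pool.Agent.H91.MN (freeSum ind ind_of ind_not ind_nonneg)

variable {n k D : ℕ}

/-- the indices of degree at most `d` -/
noncomputable def low (k D d : ℕ) : Finset (Ix k D) := Finset.univ.filter fun α => dg α ≤ d

/-- typical full tests -/
def Typical (d : ℕ) (z : Bool × Fin n → Str k D) : Prop :=
  ∀ s : Bool, ∑ α ∈ low k D d, ∑ β ∈ low k D d, gram ph (fun x => z (s, x)) α β ^ 2 ≤ (1 / 16) ^ 2

private def splitEquiv (V : Type) (n : ℕ) (s : Bool) :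
    (Bool × Fin n → V) ≃ (Fin n → V) × (Fin n → V) where
  toFun z := (fun x => z (s, x), fun x => z (!s, x))
  invFun w p := if p.1 = s then w.1 p.2 else w.2 p.2
  left_inv z := by
    funext ⟨c, x⟩
    by_cases h : c = s
    · subst h
      simp
    · have h1 : c = !s := by
        cases c <;> cases s <;> simp_all
      subst h1
      simp [h]
  right_inv w := by
    ext x <;> simp

private theorem pr_list {V : Type} [Fintype V] [Nonempty V] (s : Bool) (Q : (Fin n → V) → Prop) :
    pr (fun z : Bool × Fin n → V => Q fun x => z (s, x)) = pr Q := by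
  have h1 := pr_equiv (splitEquiv V n s) fun w => Q w.1
  have h2 : pr (fun w : (Fin n → V) × (Fin n → V) => Q w.1) = pr Q := by
    rw [pr_prod fun (a : Fin n → V) (_ : Fin n → V) => Q a]
    unfold pr
    exact av_congr fun a => av_const _
  rw [← h2, ← h1]
  rfl

/-- most tests are typical -/
theorem not_typical_le (hk : 1 ≤ k) (hn : 0 < n) (d : ℕ) :
    pr (fun z : Bool × Fin n → Str k D => ¬ Typical d z) ≤
      512 * ((low k D d).card : ℝ) ^ 2 * (k : ℝ) ^ (2 * d) / n := by
  classical
  have hne : Nonempty (Str k D) := ⟨fun _ => ⟨0, by omega⟩⟩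
  have hk1 : (1 : ℝ) ≤ k := by exact_mod_cast hk
  have h1 : pr (fun z : Bool × Fin n → Str k D => ¬ Typical d z) ≤
      pr (fun z : Bool × Fin n → Str k D => ∃ s ∈ (Finset.univ : Finset Bool),
        (1 / 16 : ℝ) ^ 2 < ∑ α ∈ low k D d, ∑ β ∈ low k D d,
          gram ph (fun x => z (s, x)) α β ^ 2) := by
    refine pr_mono fun z hz => ?_
    unfold Typical at hz
    push Not at hz
    obtain ⟨s, hs⟩ := hz
    exact ⟨s, Finset.mem_univ s, hs⟩
  refine h1.trans ((pr_exists_le _ _).trans ?_)
  have h2 : ∀ s : Bool, pr (fun z : Bool × Fin n → Str k D =>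
      (1 / 16 : ℝ) ^ 2 < ∑ α ∈ low k D d, ∑ β ∈ low k D d,
          gram ph (fun x => z (s, x)) α β ^ 2) ≤
      ((low k D d).card : ℝ) ^ 2 * ((k : ℝ) ^ d) ^ 2 / (n * (1 / 16) ^ 2) := by
    intro s
    rw [pr_list s fun y : Fin n → Str k D =>
      (1 / 16 : ℝ) ^ 2 < ∑ α ∈ low k D d, ∑ β ∈ low k D d, gram ph y α β ^ 2]
    refine typ_le hn (low k D d) ph (by norm_num) fun α hα a => ?_
    refine (ph_sq_le hk α a).trans (pow_le_pow_right₀ hk1 ?_)
    exact (Finset.mem_filter.1 hα).2
  rw [Fintype.sum_bool]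
  refine (add_le_add (h2 true) (h2 false)).trans (le_of_eq ?_)
  have hn' : (n : ℝ) ≠ 0 := by
    have : (0 : ℝ) < n := by exact_mod_cast hn
    exact this.ne'
  rw [← pow_mul, mul_comm d 2]
  field_simp
  ring

/-- the functions of positive degree have average `0` -/
theorem av_ph (hk : 1 ≤ k) {α : Ix k D} (hα : α ≠ fun _ => none) : av (ph α) = 0 := by
  classical
  obtain ⟨i, hi⟩ : ∃ i, α i ≠ none := by
    by_contra hcon
    push Not at hcon
    exact hα (funext hcon)
  unfold av
  have h1 : ∑ u : Str k D, ph α u = ∏ i, ∑ a, ps k (α i) a := by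
    unfold ph
    rw [Finset.prod_univ_sum]
    rw [Fintype.piFinset_univ]
  have h2 : ∑ a, ps k (α i) a = 0 := by
    obtain ⟨c, hc⟩ := Option.ne_none_iff_exists'.1 hi
    rw [hc]
    have hk0 : (k : ℝ) ≠ 0 := by
      have : (1 : ℝ) ≤ k := by exact_mod_cast hk
      linarith
    unfold ps
    rw [← Finset.mul_sum, Finset.sum_sub_distrib]
    simp [hk0]
  rw [h1, Finset.prod_eq_zero (Finset.mem_univ i) h2, zero_div]

section

variable {E : Finset (Bool × Fin n → Str k D)} {t : ℝ}

/-- the truncated density -/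
noncomputable def tr (E : Finset (Bool × Fin n → Str k D)) (t : ℝ) (p : Bool × Fin n)
    (a : Str k D) : ℝ :=
  dens E p a * ind (dens E p a ≤ t)

theorem tr_nonneg (p : Bool × Fin n) (a : Str k D) : 0 ≤ tr E t p a :=
  mul_nonneg (dens_nonneg E p a) (ind_nonneg _)

theorem tr_le (ht : 0 ≤ t) (p : Bool × Fin n) (a : Str k D) : tr E t p a ≤ t := by
  unfold tr
  by_cases h : dens E p a ≤ t
  · rw [ind_of h, mul_one]
    exact h
  · rw [ind_not h, mul_zero]
    exact ht

theorem tr_le_ind (ht : 0 ≤ t) {Φ : Bool × Fin n → Set (Str k D)}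
    (hΦ : ∀ z ∈ E, ∀ p, z p ∉ Φ p) (p : Bool × Fin n) (a : Str k D) :
    tr E t p a ≤ t * ind (a ∉ Φ p) := by
  by_cases h : 0 < dens E p a
  · obtain ⟨z, hz, rfl⟩ := exists_of_dens_pos h
    rw [ind_of (hΦ z hz p), mul_one]
    exact tr_le ht p _
  · have h1 : dens E p a = 0 := le_antisymm (not_lt.1 h) (dens_nonneg E p a)
    unfold tr
    rw [h1, zero_mul]
    exact mul_nonneg ht (ind_nonneg _)

/-- the average over a list of the truncated densities -/
noncomputable def FF (E : Finset (Bool × Fin n → Str k D)) (t : ℝ) (s : Bool) (a : Str k D) : ℝ :=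
  (∑ x, tr E t (s, x) a) / n

/-- the number of bad positions -/
noncomputable def bad (E : Finset (Bool × Fin n → Str k D)) (t : ℝ) (s : Bool)
    (z : Bool × Fin n → Str k D) : ℝ :=
  ∑ x : Fin n, ind (t < dens E (s, x) (z (s, x)))

theorem FF_nonneg (s : Bool) (a : Str k D) : 0 ≤ FF E t s a :=
  div_nonneg (Finset.sum_nonneg fun x _ => tr_nonneg _ _) (Nat.cast_nonneg _)

theorem FF_le (hn : 0 < n) (ht : 0 ≤ t) (s : Bool) (a : Str k D) : FF E t s a ≤ t := by
  have hn' : (0 : ℝ) < n := by exact_mod_cast hn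
  unfold FF
  rw [div_le_iff₀ hn']
  refine (Finset.sum_le_card_nsmul _ _ t fun x _ => tr_le ht _ _).trans (le_of_eq ?_)
  rw [Finset.card_univ, Fintype.card_fin, nsmul_eq_mul]
  ring

/-- the good part of a sampled average -/
noncomputable def gp (E : Finset (Bool × Fin n → Str k D)) (t : ℝ) (s : Bool) (α : Ix k D)
    (z : Bool × Fin n → Str k D) : ℝ :=
  (∑ x : Fin n, ind (dens E (s, x) (z (s, x)) ≤ t) * ph α (z (s, x))) / n

theorem hat_FF (s : Bool) (α : Ix k D) :
    hat (FF E t s) α = (∑ z ∈ E, gp E t s α z) / E.card := by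
  unfold hat FF gp
  have h1 : (av fun u => (∑ x, tr E t (s, x) u) / n * ph α u) =
      av fun u => ∑ x, (1 / (n : ℝ)) * (dens E (s, x) u *
        (ind (dens E (s, x) u ≤ t) * ph α u)) := by
    refine av_congr fun u => ?_
    rw [← Finset.mul_sum, Finset.sum_div, Finset.sum_mul, Finset.mul_sum]
    refine Finset.sum_congr rfl fun x _ => ?_
    unfold tr
    ring
  rw [h1, av_sum]
  have h2 : ∀ x : Fin n, (av fun u => (1 / (n : ℝ)) * (dens E (s, x) u *
        (ind (dens E (s, x) u ≤ t) * ph α u))) =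
      (1 / (n : ℝ)) * ((∑ z ∈ E, ind (dens E (s, x) (z (s, x)) ≤ t) * ph α (z (s, x))) /
        E.card) := by
    intro x
    rw [av_mul_left]
    congr 1
    exact av_dens_mul (E := E) (s, x) fun a => ind (dens E (s, x) a ≤ t) * ph α a
  rw [Finset.sum_congr rfl fun x _ => h2 x, ← Finset.mul_sum, ← Finset.sum_div, Finset.sum_comm,
    ← Finset.sum_div]
  ring

theorem bad_nonneg (s : Bool) (z : Bool × Fin n → Str k D) : 0 ≤ bad E t s z :=
  Finset.sum_nonneg fun _ _ => ind_nonneg _

private theorem ind_le_add (a : ℝ) : ind (a ≤ t) = 1 - ind (t < a) := by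
  by_cases h : a ≤ t
  · rw [ind_of h, ind_not (not_lt.2 h)]
    ring
  · rw [ind_not h, ind_of (not_le.1 h)]
    ring

theorem hat_none (hn : 0 < n) (hE : E.Nonempty) (s : Bool) :
    hat (FF E t s) (fun _ => none) = 1 - (∑ z ∈ E, bad E t s z) / (n * E.card) := by
  have hn' : (0 : ℝ) < n := by exact_mod_cast hn
  have hE' : (0 : ℝ) < E.card := by exact_mod_cast hE.card_pos
  rw [hat_FF]
  have h1 : ∀ z ∈ E, gp E t s (fun _ => none) z = 1 - bad E t s z / n := by
    intro z _
    unfold gp bad
    rw [Finset.sum_congr rfl fun x _ => by rw [ph_none, mul_one, ind_le_add],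
      Finset.sum_sub_distrib, Finset.sum_const, Finset.card_univ, Fintype.card_fin, nsmul_eq_mul,
      mul_one]
    field_simp
  rw [Finset.sum_congr rfl h1, Finset.sum_sub_distrib, Finset.sum_const, nsmul_eq_mul, mul_one,
    ← Finset.sum_div]
  field_simp

/-- the low part of one list -/
theorem low_sq_le (hk : 1 ≤ k) (hn : 0 < n) {d : ℕ} (s : Bool) {z : Bool × Fin n → Str k D}
    (hz : Typical d z) :
    ∑ α ∈ (low k D d).erase (fun _ => none), gp E t s α z ^ 2 ≤
      1 / 128 + 17 / 8 * (bad E t s z / n) := by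
  classical
  have hne : Nonempty (Str k D) := ⟨fun _ => ⟨0, by omega⟩⟩
  have hn' : (0 : ℝ) < n := by exact_mod_cast hn
  have hnone : (fun _ => none : Ix k D) ∈ low k D d := by
    unfold low
    rw [Finset.mem_filter]
    exact ⟨Finset.mem_univ _, by rw [dg_none]; exact Nat.zero_le _⟩
  set w : Fin n → ℝ := fun x => ind (t < dens E (s, x) (z (s, x))) with hw
  have h1 := sub_le hn (low k D d) ph (θ := 1 / 16) (by norm_num) (fun r => bessel hk _ r) (hz s) w
  have h2 : ∑ x, w x ^ 2 = bad E t s z := by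
    unfold bad
    refine Finset.sum_congr rfl fun x _ => ?_
    rw [hw]
    dsimp only
    by_cases h : t < dens E (s, x) (z (s, x))
    · rw [ind_of h]
      norm_num
    · rw [ind_not h]
      norm_num
  rw [h2] at h1
  have h3 : ∀ α ∈ (low k D d).erase (fun _ => none), gp E t s α z ^ 2 ≤
      2 * gram ph (fun x => z (s, x)) α (fun _ => none) ^ 2 +
        2 * ((∑ x, w x * ph α (z (s, x))) / n) ^ 2 := by
    intro α hα
    have hα' : α ≠ fun _ => none := (Finset.mem_erase.1 hα).1
    have h4 : gp E t s α z = gram ph (fun x => z (s, x)) α (fun _ => none) -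
        (∑ x, w x * ph α (z (s, x))) / n := by
      unfold gp gram
      have h5 : (av fun a : Str k D => ph α a * ph (fun _ => none) a) = 0 := by
        rw [← av_ph hk hα']
        exact av_congr fun a => by rw [ph_none, mul_one]
      rw [h5, sub_zero, ← sub_div, ← Finset.sum_sub_distrib]
      congr 1
      refine Finset.sum_congr rfl fun x _ => ?_
      rw [ph_none, ind_le_add, hw]
      ring
    rw [h4]
    nlinarith [sq_nonneg (gram ph (fun x => z (s, x)) α (fun _ => none) +
        (∑ x, w x * ph α (z (s, x))) / n)]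
  have h4 : ∑ α ∈ (low k D d).erase (fun _ => none),
      gram ph (fun x => z (s, x)) α (fun _ => none) ^ 2 ≤ (1 / 16) ^ 2 := by
    refine le_trans ?_ (hz s)
    refine (Finset.sum_le_sum_of_subset_of_nonneg (Finset.erase_subset _ _) fun _ _ _ =>
      sq_nonneg _).trans ?_
    refine Finset.sum_le_sum fun α _ => ?_
    exact Finset.single_le_sum (f := fun β => gram ph (fun x => z (s, x)) α β ^ 2)
      (fun _ _ => sq_nonneg _) hnone
  have h5 : ∑ α ∈ (low k D d).erase (fun _ => none), ((∑ x, w x * ph α (z (s, x))) / n) ^ 2 ≤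
      (1 + 1 / 16) * (bad E t s z / n) :=
    (Finset.sum_le_sum_of_subset_of_nonneg (Finset.erase_subset _ _) fun _ _ _ =>
      sq_nonneg _).trans h1
  refine (Finset.sum_le_sum h3).trans ?_
  rw [Finset.sum_add_distrib, ← Finset.mul_sum, ← Finset.mul_sum]
  nlinarith

/-- the low coefficients of the average -/
theorem low_hat_le (hk : 1 ≤ k) (hn : 0 < n) (hE : E.Nonempty) {d : ℕ}
    (hty : ∀ z ∈ E, Typical d z) (s : Bool) :
    ∑ α ∈ (low k D d).erase (fun _ => none), hat (FF E t s) α ^ 2 ≤
      1 / 128 + 17 / 8 * ((∑ z ∈ E, bad E t s z) / (n * E.card)) := by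
  classical
  have hn' : (0 : ℝ) < n := by exact_mod_cast hn
  have hE' : (0 : ℝ) < E.card := by exact_mod_cast hE.card_pos
  have h1 : ∀ α, hat (FF E t s) α ^ 2 ≤ (∑ z ∈ E, gp E t s α z ^ 2) / E.card := by
    intro α
    rw [hat_FF, div_pow, div_le_div_iff₀ (by positivity) hE']
    have := sq_sum_le_card_mul_sum_sq (s := E) (f := fun z => gp E t s α z)
    nlinarith
  refine (Finset.sum_le_sum fun α _ => h1 α).trans ?_
  rw [← Finset.sum_div, Finset.sum_comm, div_le_iff₀ hE']
  refine (Finset.sum_le_sum fun z hz => low_sq_le (E := E) (t := t) hk hn s (hty z hz)).trans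
    (le_of_eq ?_)
  rw [Finset.sum_add_distrib, Finset.sum_const, nsmul_eq_mul, ← Finset.mul_sum, ← Finset.sum_div]
  field_simp

theorem all_hat_le (hk : 1 ≤ k) (hn : 0 < n) (hE : E.Nonempty) (ht : 0 ≤ t) (s : Bool) :
    ∑ α, hat (FF E t s) α ^ 2 ≤ t := by
  classical
  have hne : Nonempty (Str k D) := ⟨fun _ => ⟨0, by omega⟩⟩
  have h1 := parseval hk (FF E t s) (FF E t s)
  have h2 : ∑ α, hat (FF E t s) α ^ 2 = av fun u => FF E t s u * FF E t s u := by
    rw [← h1]
    exact Finset.sum_congr rfl fun α _ => by ring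
  rw [h2]
  have h3 : (av fun u => FF E t s u * FF E t s u) ≤ av fun u => t * FF E t s u :=
    av_mono fun u => mul_le_mul_of_nonneg_right (FF_le hn ht s u) (FF_nonneg s u)
  refine h3.trans ?_
  rw [av_mul_left]
  have h4 : av (FF E t s) ≤ 1 := by
    have h5 := hat_none (E := E) (t := t) hn hE s
    have h6 : hat (FF E t s) (fun _ => none) = av (FF E t s) := by
      unfold hat
      exact av_congr fun u => by rw [ph_none, mul_one]
    rw [← h6, h5]
    have h7 : 0 ≤ (∑ z ∈ E, bad E t s z) / (n * E.card) :=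
      div_nonneg (Finset.sum_nonneg fun z _ => bad_nonneg s z) (by positivity)
    linarith
  nlinarith

end

/-- **Lemma K.** `E` is a set of typical tests, of measure at least `exp (-(b n))`; all `z ∈ E` avoid `Φ`. If `(k-1)^d` is at
least `16 exp (16 (b + 2))` then the planted pairs which avoid `Φ` have measure at least `exp (-(32 (b+2))) / 2`. -/
theorem key (hk : 3 ≤ k) (hn : 0 < n) {b : ℝ} (hb : 0 ≤ b) {d : ℕ}
    (hd : 16 * Real.exp (16 * (b + 2)) ≤ ((k : ℝ) - 1) ^ d)
    {E : Finset (Bool × Fin n → Str k D)} (hE : ∀ z ∈ E, Typical d z)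
    (hm : Real.exp (-(b * n)) * (Fintype.card (Str k D) : ℝ) ^ (2 * n) ≤ E.card)
    {Φ : Bool × Fin n → Set (Str k D)} (hΦ : ∀ z ∈ E, ∀ p, z p ∉ Φ p) :
    Real.exp (-(32 * (b + 2))) / 2 * (n : ℝ) ^ 2 ≤ freeSum Φ := by
  classical
  have hk1 : 1 ≤ k := by omega
  have hk3 : (3 : ℝ) ≤ k := by exact_mod_cast hk
  have hne : Nonempty (Str k D) := ⟨fun _ => ⟨0, by omega⟩⟩
  have hn' : (0 : ℝ) < n := by exact_mod_cast hn
  set t : ℝ := Real.exp (16 * (b + 2)) with ht
  have ht0 : 0 < t := Real.exp_pos _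
  have ht1 : 1 ≤ t := Real.one_le_exp (by positivity)
  have hcard : (0 : ℝ) < Fintype.card (Str k D) := by exact_mod_cast Fintype.card_pos
  have hEpos : 0 < (E.card : ℝ) := lt_of_lt_of_le (by positivity) hm
  have hEne : E.Nonempty := by
    rw [← Finset.card_pos]
    exact_mod_cast hEpos
  -- the bad positions
  set τ : Bool → ℝ := fun s => (∑ z ∈ E, bad E t s z) / (n * E.card) with hτ
  have hτ0 : ∀ s, 0 ≤ τ s := fun s =>
    div_nonneg (Finset.sum_nonneg fun z _ => bad_nonneg s z) (by positivity)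
  have hτsum : τ true + τ false ≤ 1 / 16 := by
    have hP : Fintype.card (Bool × Fin n) = 2 * n := by simp
    have h1 := entropy (E := E) hEne (B := b * n) ht1 (by rw [hP]; exact hm)
    rw [hP, ht, Real.log_exp] at h1
    have h2 : ∀ z, ((Finset.univ.filter fun p : Bool × Fin n => t < dens E p (z p)).card : ℝ) =
        bad E t true z + bad E t false z := by
      intro z
      rw [Finset.card_filter]
      push_cast
      rw [Fintype.sum_prod_type, Fintype.sum_bool]
      unfold bad ind
      rfl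
    rw [← ht] at h1
    rw [Finset.sum_congr rfl fun z _ => h2 z, Finset.sum_add_distrib] at h1
    rw [hτ]
    dsimp only
    rw [← add_div, div_le_iff₀ (by positivity)]
    push_cast at h1
    have h3 : (∑ z ∈ E, bad E t true z + ∑ z ∈ E, bad E t false z) * (16 * (b + 2)) ≤
        (1 / 16 * (n * E.card)) * (16 * (b + 2)) := by
      refine h1.trans (le_of_eq ?_)
      ring
    exact le_of_mul_le_mul_right h3 (by positivity)
  -- the coefficients
  set v : Bool → Ix k D → ℝ := fun s => hat (FF E t s) with hv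
  have hv0 : ∀ s, v s (fun _ => none) = 1 - τ s := fun s => hat_none hn hEne s
  have hvl : ∀ s, ∑ α ∈ (low k D d).erase (fun _ => none), v s α ^ 2 ≤ 1 / 128 + 17 / 8 * τ s :=
    fun s => low_hat_le hk1 hn hEne hE s
  have hva : ∀ s, ∑ α, v s α ^ 2 ≤ t := fun s => all_hat_le hk1 hn hEne ht0.le s
  set ρ : ℝ := 1 / ((k : ℝ) - 1) with hρ
  have hρ0 : 0 < ρ := by
    rw [hρ]
    apply one_div_pos.2
    linarith
  have hρ1 : ρ ≤ 1 / 2 := by
    rw [hρ]
    exact one_div_le_one_div_of_le (by norm_num) (by linarith)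
  have hρd : ρ ^ d * t ≤ 1 / 16 := by
    rw [hρ, one_div_pow, one_div, ← div_eq_inv_mul, div_le_iff₀ (by
      apply pow_pos
      linarith)]
    linarith
  -- the main lower bound
  have hmain : (1 : ℝ) / 2 ≤ avR fun a b => FF E t false a * FF E t true b := by
    rw [avR_eq (by omega) (FF E t false) (FF E t true)]
    set c : Ix k D → ℝ := fun α => (-(1 / ((k : ℝ) - 1))) ^ dg α with hc
    have hcabs : ∀ α, |c α| = ρ ^ dg α := by
      intro α
      rw [hc]
      dsimp only
      rw [abs_pow, abs_neg, ← hρ, abs_of_pos hρ0]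
    have h1 : ∀ α ∈ Finset.univ.erase (fun _ => none : Ix k D),
        -((if α ∈ low k D d then (1 / 4 : ℝ) * (v false α ^ 2 + v true α ^ 2) else 0) +
          ρ ^ d / 2 * (v false α ^ 2 + v true α ^ 2)) ≤ c α * (v false α * v true α) := by
      intro α hα
      have hα' : α ≠ fun _ => none := (Finset.mem_erase.1 hα).1
      have h2 : |v false α * v true α| ≤ (v false α ^ 2 + v true α ^ 2) / 2 := by
        rw [abs_le]
        constructor <;> nlinarith [sq_nonneg (v false α + v true α),
          sq_nonneg (v false α - v true α)]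
      have h3 : -(ρ ^ dg α * ((v false α ^ 2 + v true α ^ 2) / 2)) ≤
          c α * (v false α * v true α) := by
        rw [neg_le]
        refine le_trans (neg_le_abs _) ?_
        rw [abs_mul, hcabs]
        exact mul_le_mul_of_nonneg_left h2 (by positivity)
      refine le_trans (neg_le_neg ?_) h3
      have h4 : 0 ≤ v false α ^ 2 + v true α ^ 2 := by positivity
      have h5 : 0 ≤ ρ ^ d := by positivity
      by_cases h6 : α ∈ low k D d
      · rw [if_pos h6]
        have h7 : ρ ^ dg α ≤ 1 / 2 :=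
          (pow_le_pow_of_le_one hρ0.le (by linarith) (dg_pos hα')).trans (by rw [pow_one]; exact hρ1)
        nlinarith
      · rw [if_neg h6, zero_add]
        have h7 : d ≤ dg α := by
          by_contra h8
          exact h6 (Finset.mem_filter.2 ⟨Finset.mem_univ _, (not_le.1 h8).le⟩)
        have h8 : ρ ^ dg α ≤ ρ ^ d := pow_le_pow_of_le_one hρ0.le (by linarith) h7
        nlinarith
    have h2 := Finset.sum_le_sum h1
    rw [Finset.sum_neg_distrib, Finset.sum_add_distrib] at h2
    have h3 : ∑ α ∈ Finset.univ.erase (fun _ => none : Ix k D),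
        (if α ∈ low k D d then (1 / 4 : ℝ) * (v false α ^ 2 + v true α ^ 2) else 0) =
        1 / 4 * (∑ α ∈ (low k D d).erase (fun _ => none), v false α ^ 2 +
          ∑ α ∈ (low k D d).erase (fun _ => none), v true α ^ 2) := by
      rw [← Finset.sum_add_distrib, Finset.mul_sum, ← Finset.sum_filter]
      refine Finset.sum_congr ?_ fun _ _ => rfl
      ext α
      simp only [Finset.mem_filter, Finset.mem_erase, Finset.mem_univ, and_true]
    have h4 : ∑ α ∈ Finset.univ.erase (fun _ => none : Ix k D),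
        ρ ^ d / 2 * (v false α ^ 2 + v true α ^ 2) ≤ ρ ^ d / 2 * (t + t) := by
      rw [← Finset.mul_sum]
      refine mul_le_mul_of_nonneg_left ?_ (by positivity)
      refine (Finset.sum_le_sum_of_subset_of_nonneg (Finset.erase_subset _ _) fun _ _ _ => by
        positivity).trans ?_
      rw [Finset.sum_add_distrib]
      exact add_le_add (hva false) (hva true)
    have h5 : ∑ α, c α * (v false α * v true α) = c (fun _ => none) *
        (v false (fun _ => none) * v true (fun _ => none)) +
        ∑ α ∈ Finset.univ.erase (fun _ => none : Ix k D), c α * (v false α * v true α) :=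
      (Finset.add_sum_erase _ _ (Finset.mem_univ _)).symm
    have h6 : c (fun _ => none) = 1 := by
      rw [hc]
      dsimp only
      rw [dg_none, pow_zero]
    show (1 : ℝ) / 2 ≤ ∑ α, c α * (v false α * v true α)
    rw [h5, h6, one_mul, hv0, hv0]
    rw [h3] at h2
    have h7 := hvl false
    have h8 := hvl true
    have h9 := hτ0 false
    have h10 := hτ0 true
    nlinarith
  -- comparison
  have hcmp : ∀ i j : Fin n, (avR fun a b => tr E t (false, i) a * tr E t (true, j) b) ≤
      t ^ 2 * avR fun a b => ind (a ∉ Φ (false, i) ∧ b ∉ Φ (true, j)) := by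
    intro i j
    rw [← avR_mul_left]
    refine avR_mono (by omega) fun a b _ => ?_
    have h1 := tr_le_ind (E := E) ht0.le hΦ (false, i) a
    have h2 := tr_le_ind (E := E) ht0.le hΦ (true, j) b
    have h3 := tr_nonneg (E := E) (t := t) (false, i) a
    have h4 := tr_nonneg (E := E) (t := t) (true, j) b
    have h5 : ind (a ∉ Φ (false, i) ∧ b ∉ Φ (true, j)) =
        ind (a ∉ Φ (false, i)) * ind (b ∉ Φ (true, j)) := by
      by_cases h6 : a ∉ Φ (false, i) <;> by_cases h7 : b ∉ Φ (true, j) <;> simp [ind, h6, h7]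
    rw [h5]
    calc tr E t (false, i) a * tr E t (true, j) b ≤
        (t * ind (a ∉ Φ (false, i))) * (t * ind (b ∉ Φ (true, j))) :=
          mul_le_mul h1 h2 h4 (mul_nonneg ht0.le (ind_nonneg _))
      _ = _ := by ring
  have hsum : (avR fun a b => FF E t false a * FF E t true b) * (n : ℝ) ^ 2 =
      ∑ i : Fin n, ∑ j : Fin n, avR fun a b => tr E t (false, i) a * tr E t (true, j) b := by
    have h1 : (fun a b => FF E t false a * FF E t true b) = fun a b =>
        (1 / (n : ℝ) ^ 2) * ∑ i : Fin n, ∑ j : Fin n, tr E t (false, i) a * tr E t (true, j) b := by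
      funext a b
      unfold FF
      rw [div_mul_div_comm, Finset.sum_mul_sum]
      ring
    rw [h1, avR_mul_left, avR_sum]
    rw [Finset.sum_congr rfl fun i _ => avR_sum _ _]
    field_simp
  have hfin : (1 / 2) * (n : ℝ) ^ 2 ≤ t ^ 2 * freeSum Φ := by
    have h1 : (1 / 2) * (n : ℝ) ^ 2 ≤
        (avR fun a b => FF E t false a * FF E t true b) * (n : ℝ) ^ 2 :=
      mul_le_mul_of_nonneg_right hmain (by positivity)
    rw [hsum] at h1
    refine h1.trans ?_
    unfold freeSum
    rw [Finset.mul_sum]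
    refine Finset.sum_le_sum fun i _ => ?_
    rw [Finset.mul_sum]
    exact Finset.sum_le_sum fun j _ => hcmp i j
  have ht2 : t ^ 2 = Real.exp (32 * (b + 2)) := by
    rw [ht, ← Real.exp_nat_mul]
    congr 1
    push_cast
    ring
  rw [ht2] at hfin
  have h1 : Real.exp (-(32 * (b + 2))) * Real.exp (32 * (b + 2)) = 1 := by
    rw [← Real.exp_add]
    simp
  have h2 : 0 < Real.exp (-(32 * (b + 2))) := Real.exp_pos _
  calc Real.exp (-(32 * (b + 2))) / 2 * (n : ℝ) ^ 2 =
      Real.exp (-(32 * (b + 2))) * ((1 / 2) * (n : ℝ) ^ 2) := by ring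
    _ ≤ Real.exp (-(32 * (b + 2))) * (Real.exp (32 * (b + 2)) * freeSum Φ) :=
        mul_le_mul_of_nonneg_left hfin h2.le
    _ = freeSum Φ := by rw [← mul_assoc, h1, one_mul]

end Pool.H22.MC
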