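import Pool.Agent.H22.MC.Key
import Pool.Agent.H22.MC.Hi

set_option autoImplicit false
set_option maxHeartbeats 4000000
set_option linter.unusedSectionVars false

/-!
# [H22 MC Lo] The lower bound for a family of nets with many certificates
-/

namespace Pool.H22.MC

open Pool.Agent.H58.OVAC (av pr Str Off Good exists_good pr_nonneg pr_mono pr_le_one pr_exists_le
  pr_not av_nonneg av_mono av_add)
open Pool.Agent.H58.OVPR (avR avR_mono avR_add avR_left avR_right avR_const)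
open Pool.Agent.H91.MN

variable {n k D : ℕ}

/-- the alphabet has at least three letters -/
theorem three_le {k : ℕ} {η : ℝ} (h0 : 0 < η) (h1 : η ≤ 1 / 2) (hk : 2 ≤ k)
    (hg : Good k (1 + η)) : 3 ≤ k := by
  by_contra hcon
  have hk2 : k = 2 := by omega
  subst hk2
  have h2 := hg 2 (by norm_num) (by norm_num)
  have h3 : (2 : ℝ) ^ (1 + η) ≤ 2 * (1 + η) := by
    rw [Real.rpow_add (by norm_num), Real.rpow_one]
    have h4 : (2 : ℝ) ^ η ≤ 1 + η := by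
      have h5 := rpow_one_add_le_one_add_mul_self (s := 1) (by norm_num) h0.le
        (by linarith : η ≤ 1)
      norm_num at h5
      exact h5
    linarith
  norm_num at h2
  linarith

theorem nums {ε : ℝ} (hε : 0 < ε) (hε1 : ε ≤ 1) (K : ℕ) : ∃ n₀ : ℕ, ∀ n ≥ n₀,
    2 ≤ n ∧ 2 * ((K : ℝ) + 1) * Real.log n ≤ (n : ℝ) ^ (-(ε / 8)) / 8 * n ∧
      16 * (2 * ((K : ℝ) + 1) * Real.log n + 1) ^ 2 ≤ (n : ℝ) ^ (ε / 4) := by
  have hK : (0 : ℝ) ≤ K := Nat.cast_nonneg K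
  have h1 := (isLittleO_log_rpow_atTop (show (0 : ℝ) < 1 / 2 by norm_num)).def
    (show (0 : ℝ) < 1 / (16 * ((K : ℝ) + 1)) by positivity)
  have h2 := (isLittleO_log_rpow_rpow_atTop 2 (show (0 : ℝ) < ε / 4 by positivity)).def
    (show (0 : ℝ) < 1 / (16 * (2 * ((K : ℝ) + 1) + 2) ^ 2) by positivity)
  have h3 := tendsto_natCast_atTop_atTop (R := ℝ)
  have h4 := h3.eventually h1
  have h5 := h3.eventually h2
  obtain ⟨n₀, hn₀⟩ := (h4.and h5).exists_forall_of_atTop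
  refine ⟨max n₀ 2, fun n hn => ?_⟩
  obtain ⟨h6, h7⟩ := hn₀ n ((le_max_left _ _).trans hn)
  have hn2 : 2 ≤ n := (le_max_right _ _).trans hn
  have hn2' : (2 : ℝ) ≤ n := by exact_mod_cast hn2
  have hn0 : (0 : ℝ) < n := by linarith
  have hlog : 1 / 2 ≤ Real.log n := by
    have := Real.log_two_gt_d9
    have h8 := Real.log_le_log (by norm_num) hn2'
    linarith
  refine ⟨hn2, ?_, ?_⟩
  · rw [Real.norm_of_nonneg (by linarith), Real.norm_of_nonneg (Real.rpow_nonneg hn0.le _)] at h6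
    have h8 : (n : ℝ) ^ ((1 : ℝ) / 2) ≤ (n : ℝ) ^ (-(ε / 8)) * n := by
      calc (n : ℝ) ^ ((1 : ℝ) / 2) ≤ (n : ℝ) ^ (-(ε / 8) + 1) :=
            Real.rpow_le_rpow_of_exponent_le (by linarith) (by linarith)
        _ = _ := by rw [Real.rpow_add hn0, Real.rpow_one]
    have h9 := mul_le_mul_of_nonneg_left h6 (show 0 ≤ 2 * ((K : ℝ) + 1) by positivity)
    have h10 : 2 * ((K : ℝ) + 1) * (1 / (16 * ((K : ℝ) + 1)) * (n : ℝ) ^ ((1 : ℝ) / 2)) =
        (n : ℝ) ^ ((1 : ℝ) / 2) / 8 := by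
      field_simp
      ring
    rw [h10] at h9
    linarith
  · rw [Real.norm_of_nonneg (Real.rpow_nonneg (by linarith) _),
      Real.norm_of_nonneg (Real.rpow_nonneg (by linarith) _), one_div, ← div_eq_inv_mul,
      le_div_iff₀ (by positivity)] at h7
    have h8 : Real.log n ^ (2 : ℝ) = Real.log n ^ 2 := by
      rw [← Real.rpow_natCast]
      norm_num
    rw [h8] at h7
    have h9 : 2 * ((K : ℝ) + 1) * Real.log n + 1 ≤ (2 * ((K : ℝ) + 1) + 2) * Real.log n := by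
      linarith
    have h10 : (2 * ((K : ℝ) + 1) * Real.log n + 1) ^ 2 ≤
        ((2 * ((K : ℝ) + 1) + 2) * Real.log n) ^ 2 :=
      pow_le_pow_left₀ (by positivity) h9 2
    calc 16 * (2 * ((K : ℝ) + 1) * Real.log n + 1) ^ 2
        ≤ 16 * ((2 * ((K : ℝ) + 1) + 2) * Real.log n) ^ 2 :=
          mul_le_mul_of_nonneg_left h10 (by positivity)
      _ = Real.log n ^ 2 * (16 * (2 * ((K : ℝ) + 1) + 2) ^ 2) := by ring
      _ ≤ _ := h7

theorem low2 {ε : ℝ} (hε : 0 < ε) (hε1 : ε ≤ 1) (K : ℕ) :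
    ∃ k : ℕ, 3 ≤ k ∧ ∃ n₀ : ℕ, ∀ n ≥ n₀,
    ∀ (D M : ℕ) (Gs : Fin M → ℕ) (Ns : ∀ w, Net (Bool × Fin n) (Str k D) (Gs w))
    (_ : ∀ w, OneL (Ns w)) (o : ∀ w, Fin (Gs w)) (ands : ∀ w, Finset (Fin (Gs w)))
    (_ : ∀ w g J, (Ns w).kind g = Kind.and J → g ∈ ands w) (s : ℕ)
    (_ : ∀ w, (ands w).card ≤ s) (_ : ∀ w, Gs w ≤ n ^ K) (b : ℝ) (_ : 0 ≤ b) (d : ℕ)
    (_ : 16 * Real.exp (16 * (b + 2)) ≤ ((k : ℝ) - 1) ^ d)
    (_ : (n : ℝ) ^ (-(ε / 8)) ≤ Real.exp (-(32 * (b + 2))) / 2)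
    (_ : M * (4 * Real.sqrt (Real.exp (-(b * n)))) <
      pr fun z : Bool × Fin n → Str k D => Typical d z ∧ ∃ w, ¬ (Ns w).val (o w) (full z))
    (_ : (pr fun τ : PT n k D => ∃ w, ¬ (Ns w).val (o w) (pl τ.1.1 τ.1.2 τ.2.1.1 τ.2.1.2)) ≤
      Real.exp (-(32 * (b + 2))) / 4),
    (n : ℝ) ^ (2 - ε) ≤ s := by
  classical
  have hK : (0 : ℝ) ≤ K := Nat.cast_nonneg K
  set η : ℝ := ε / (4 * ((K : ℝ) + 2)) with hη
  have hη0 : 0 < η := by positivity
  have hη2 : η ≤ 1 / 2 := by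
    rw [hη, div_le_iff₀ (by positivity)]
    nlinarith
  have hη1 : η ≤ 1 := by linarith
  obtain ⟨k, hk, hgood⟩ := exists_good hη0 hη1
  have hk3 : 3 ≤ k := three_le hη0 hη2 hk hgood
  obtain ⟨n₀, hn₀⟩ := nums hε hε1 K
  refine ⟨k, hk3, n₀, ?_⟩
  intro n hn D M Gs Ns hN o ands hands s hs hG b hb d hd hκn hE hA
  obtain ⟨hn2, hnum1, hnum2⟩ := hn₀ n hn
  have hn2' : (2 : ℝ) ≤ n := by exact_mod_cast hn2
  have hn0 : (0 : ℝ) < n := by linarith
  have hn1 : (1 : ℝ) ≤ n := by linarith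
  have hne : Nonempty (Str k D) := ⟨fun _ => ⟨0, by omega⟩⟩
  set κ : ℝ := Real.exp (-(32 * (b + 2))) / 2 with hκ
  have hκ0 : 0 < κ := by positivity
  set m : ℝ := Real.exp (-(b * n)) with hm
  have hm0 : 0 < m := Real.exp_pos _
  -- a circuit which rejects many typical tests
  obtain ⟨w, hw⟩ : ∃ w, 4 * Real.sqrt m <
      pr fun z : Bool × Fin n → Str k D => Typical d z ∧ ¬ (Ns w).val (o w) (full z) := by
    by_contra hcon
    push Not at hcon
    have h1 : pr (fun z : Bool × Fin n → Str k D =>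
        Typical d z ∧ ∃ w, ¬ (Ns w).val (o w) (full z)) ≤
        ∑ w ∈ (Finset.univ : Finset (Fin M)),
          pr (fun z : Bool × Fin n → Str k D => Typical d z ∧ ¬ (Ns w).val (o w) (full z)) := by
      refine le_trans (pr_mono fun z hz => ?_) (pr_exists_le _ _)
      obtain ⟨hty, w, hz⟩ := hz
      exact ⟨w, Finset.mem_univ _, hty, hz⟩
    have h2 : (∑ w ∈ (Finset.univ : Finset (Fin M)),
        pr (fun z : Bool × Fin n → Str k D => Typical d z ∧ ¬ (Ns w).val (o w) (full z))) ≤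
          M * (4 * Real.sqrt m) := by
      refine (Finset.sum_le_card_nsmul _ _ _ fun w _ => hcon w).trans ?_
      rw [Finset.card_univ, Fintype.card_fin, nsmul_eq_mul]
    linarith
  have hG1 : 1 ≤ Gs w := (Nat.zero_le _).trans_lt (o w).2
  have hG1' : (1 : ℝ) ≤ Gs w := by exact_mod_cast hG1
  obtain ⟨σ, hσ1, hσ2⟩ := hist2 (Ns w) hG1 hm0
    (fun z => Typical d z ∧ ¬ (Ns w).val (o w) (full z)) hw
  -- the set of tests
  set E : Finset (Bool × Fin n → Str k D) := Finset.univ.filter fun z =>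
    (Typical d z ∧ ¬ (Ns w).val (o w) (full z)) ∧
      go (Ns w) ((1 / (2 * Gs w : ℝ)) ^ 2) z (Gs w) = σ with hEdef
  have hEcard : m * (Fintype.card (Str k D) : ℝ) ^ (2 * n) ≤ E.card := by
    have h1 : (pr fun z : Bool × Fin n → Str k D =>
        (Typical d z ∧ ¬ (Ns w).val (o w) (full z)) ∧
        go (Ns w) ((1 / (2 * Gs w : ℝ)) ^ 2) z (Gs w) = σ) =
        (E.card : ℝ) / (Fintype.card (Str k D) : ℝ) ^ (2 * n) := by
      unfold pr av
      congr 1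
      · rw [hEdef, Finset.card_filter]
        push_cast
        exact Finset.sum_congr rfl fun x _ => by congr
      · rw [Fintype.card_fun]
        push_cast
        congr 1
        simp
    rw [h1] at hσ1
    have hc : (0 : ℝ) < (Fintype.card (Str k D) : ℝ) ^ (2 * n) := by
      have : (0 : ℝ) < Fintype.card (Str k D) := by exact_mod_cast Fintype.card_pos
      positivity
    rwa [le_div_iff₀ hc] at hσ1
  have hEne : E.Nonempty := by
    rw [← Finset.card_pos]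
    have hc : (0 : ℝ) < (Fintype.card (Str k D) : ℝ) ^ (2 * n) := by
      have : (0 : ℝ) < Fintype.card (Str k D) := by exact_mod_cast Fintype.card_pos
      positivity
    have : (0 : ℝ) < E.card := lt_of_lt_of_le (by positivity) hEcard
    exact_mod_cast this
  obtain ⟨z, hzE⟩ := hEne
  have hz := (Finset.mem_filter.1 hzE).2
  obtain ⟨-, hlaw⟩ := hσ2 z hz.2
  have hfree : κ * (n : ℝ) ^ 2 ≤ freeSum σ.Φ := by
    refine key hk3 (by omega) hb hd (E := E) (fun z' hz' => (Finset.mem_filter.1 hz').2.1.1) hEcard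
      fun z' hz' => (hσ2 z' (Finset.mem_filter.1 hz').2.2).1
  have ho : ¬ σ.c (o w) := fun h => hz.1.2 ((hlaw (o w)).sound (Or.inl h))
  set K1 : ℝ := Real.log (1 / (1 / (2 * (Gs w : ℝ))) ^ 2) with hK1
  have hK1eq : K1 = 2 * Real.log (2 * Gs w) := by
    rw [hK1, one_div_pow, one_div_one_div, Real.log_pow]
    norm_num
  have hK10 : 0 ≤ K1 := by
    rw [hK1eq]
    have := Real.log_nonneg (show (1 : ℝ) ≤ 2 * Gs w by linarith)
    positivity
  have hmain := free_le (n := n) hk (by linarith : (1 : ℝ) ≤ 1 + η) (by linarith) hgood (Ns w)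
    (hN w) (c := σ.c) (φ := σ.φ) (Φ := σ.Φ) (K := K1) (fun g => (hlaw g).cst)
    (fun g p => (hlaw g).fn p) (fun g hg => (hlaw g).light hg) hK10 (ands w) (hands w) ho
  -- the planted tests
  have hpl : κ * (n : ℝ) ^ 2 ≤ (∑ i, ∑ j, avR fun a b : Str k D =>
      ind ((Ns w).val (o w) (pl i j a b) ∧ a ∉ σ.Φ (false, i) ∧ b ∉ σ.Φ (true, j))) +
      (n : ℝ) ^ 2 * (κ / 2) := by
    have h1 : (∑ i, ∑ j, avR fun a b : Str k D => ind (¬ (Ns w).val (o w) (pl i j a b))) ≤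
        (n : ℝ) ^ 2 * (κ / 2) := by
      rw [← pr_pt hk fun i j a b => ¬ (Ns w).val (o w) (pl i j a b)]
      have h2 : κ / 2 = Real.exp (-(32 * (b + 2))) / 4 := by
        rw [hκ]
        ring
      rw [h2]
      refine mul_le_mul_of_nonneg_left (le_trans (pr_mono fun τ h => ⟨w, h⟩) hA) (by positivity)
    refine hfree.trans (le_trans ?_ (add_le_add_right h1 _))
    rw [← Finset.sum_add_distrib]
    unfold freeSum
    refine Finset.sum_le_sum fun i _ => ?_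
    rw [← Finset.sum_add_distrib]
    refine Finset.sum_le_sum fun j _ => ?_
    rw [← avR_add]
    refine avR_mono hk fun a b _ => ?_
    by_cases h2 : a ∉ σ.Φ (false, i) ∧ b ∉ σ.Φ (true, j)
    · by_cases h3 : (Ns w).val (o w) (pl i j a b)
      · rw [ind_of h2, ind_of (show (Ns w).val (o w) (pl i j a b) ∧ a ∉ σ.Φ (false, i) ∧
          b ∉ σ.Φ (true, j) from ⟨h3, h2⟩)]
        linarith [ind_nonneg (¬ (Ns w).val (o w) (pl i j a b))]
      · rw [ind_of h2, ind_of (show ¬ (Ns w).val (o w) (pl i j a b) from h3)]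
        linarith [ind_nonneg ((Ns w).val (o w) (pl i j a b) ∧ a ∉ σ.Φ (false, i) ∧
          b ∉ σ.Φ (true, j))]
    · rw [ind_not h2]
      linarith [ind_nonneg (¬ (Ns w).val (o w) (pl i j a b)),
        ind_nonneg ((Ns w).val (o w) (pl i j a b) ∧ a ∉ σ.Φ (false, i) ∧
          b ∉ σ.Φ (true, j))]
  -- numbers
  set L : ℝ := 2 * ((K : ℝ) + 1) * Real.log n with hL
  have hlog0 : 0 ≤ Real.log n := Real.log_nonneg hn1
  have hL0 : 0 ≤ L := by positivity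
  have hGn : (Gs w : ℝ) ≤ (n : ℝ) ^ K := by exact_mod_cast hG w
  have hK1L : K1 ≤ L := by
    have h1 : Real.log (2 * Gs w) ≤ ((K : ℝ) + 1) * Real.log n := by
      have h2 : ((K : ℝ) + 1) * Real.log n = Real.log ((n : ℝ) ^ (K + 1)) := by
        rw [Real.log_pow]
        push_cast
        ring
      rw [h2]
      refine Real.log_le_log (by positivity) ?_
      rw [pow_succ, mul_comm]
      exact mul_le_mul hGn (by linarith) (by norm_num) (by positivity)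
    rw [hK1eq, hL]
    linarith
  have hexp : 1 - 1 / (1 + η) ≤ η := by
    rw [sub_le_iff_le_add, ← sub_le_iff_le_add']
    rw [le_div_iff₀ (by linarith)]
    nlinarith
  have hb1 : (n : ℝ) ^ (1 - 1 / (1 + η)) ≤ (n : ℝ) ^ η :=
    Real.rpow_le_rpow_of_exponent_le hn1 hexp
  have hb2 : (n * Gs w : ℝ) ^ (1 - 1 / (1 + η)) ≤ (n : ℝ) ^ (((K : ℝ) + 1) * η) := by
    have h1 : (1 : ℝ) ≤ n * Gs w := by nlinarith
    have h2 : (n * Gs w : ℝ) ≤ (n : ℝ) ^ ((K : ℝ) + 1) := by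
      have h3 : (n : ℝ) ^ ((K : ℝ) + 1) = (n : ℝ) ^ (K + 1) := by
        rw [← Real.rpow_natCast]
        push_cast
        rfl
      rw [h3, pow_succ, mul_comm]
      exact mul_le_mul_of_nonneg_right hGn hn0.le
    calc (n * Gs w : ℝ) ^ (1 - 1 / (1 + η)) ≤ (n * Gs w : ℝ) ^ η :=
          Real.rpow_le_rpow_of_exponent_le h1 hexp
      _ ≤ ((n : ℝ) ^ ((K : ℝ) + 1)) ^ η := Real.rpow_le_rpow (by linarith) h2 hη0.le
      _ = _ := by rw [← Real.rpow_mul hn0.le]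
  have hprod : (n : ℝ) ^ η * (n : ℝ) ^ (((K : ℝ) + 1) * η) ≤ (n : ℝ) ^ (ε / 4) := by
    rw [← Real.rpow_add hn0]
    refine Real.rpow_le_rpow_of_exponent_le hn1 (le_of_eq ?_)
    rw [hη]
    field_simp
    ring
  have hB : (n : ℝ) ^ (1 - 1 / (1 + η)) * (K1 + 1) *
      ((n * Gs w : ℝ) ^ (1 - 1 / (1 + η)) * (K1 + 1)) ≤ (n : ℝ) ^ (ε / 4) * (L + 1) ^ 2 := by
    have h1 : 0 ≤ (n : ℝ) ^ (1 - 1 / (1 + η)) := Real.rpow_nonneg hn0.le _
    have h2 : 0 ≤ (n * Gs w : ℝ) ^ (1 - 1 / (1 + η)) := Real.rpow_nonneg (by positivity) _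
    have h3 : (n : ℝ) ^ (1 - 1 / (1 + η)) * (n * Gs w : ℝ) ^ (1 - 1 / (1 + η)) ≤
        (n : ℝ) ^ (ε / 4) :=
      (mul_le_mul hb1 hb2 h2 (Real.rpow_nonneg hn0.le _)).trans hprod
    have h4 : (K1 + 1) ^ 2 ≤ (L + 1) ^ 2 := pow_le_pow_left₀ (by linarith) (by linarith) 2
    calc (n : ℝ) ^ (1 - 1 / (1 + η)) * (K1 + 1) *
      ((n * Gs w : ℝ) ^ (1 - 1 / (1 + η)) * (K1 + 1)) =
        ((n : ℝ) ^ (1 - 1 / (1 + η)) * (n * Gs w : ℝ) ^ (1 - 1 / (1 + η))) * (K1 + 1) ^ 2 := by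
          ring
      _ ≤ (n : ℝ) ^ (ε / 4) * (L + 1) ^ 2 :=
          mul_le_mul h3 h4 (by positivity) (Real.rpow_nonneg hn0.le _)
  have hs' : ((ands w).card : ℝ) ≤ s := by exact_mod_cast hs w
  have hne2 : 0 ≤ (n : ℝ) ^ (ε / 4) := Real.rpow_nonneg hn0.le _
  have hterm : ((ands w).card : ℝ) * (2 * ((n : ℝ) ^ (1 - 1 / (1 + η)) * (K1 + 1) *
      ((n * Gs w : ℝ) ^ (1 - 1 / (1 + η)) * (K1 + 1)))) ≤
      s * (2 * ((n : ℝ) ^ (ε / 4) * (L + 1) ^ 2)) := by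
    refine mul_le_mul hs' (by linarith) ?_ (Nat.cast_nonneg _)
    have h1 : 0 ≤ (n : ℝ) ^ (1 - 1 / (1 + η)) := Real.rpow_nonneg hn0.le _
    have h2 : 0 ≤ (n * Gs w : ℝ) ^ (1 - 1 / (1 + η)) := Real.rpow_nonneg (by positivity) _
    positivity
  set x : ℝ := (n : ℝ) ^ (-(ε / 8)) with hx
  have hx0 : 0 < x := Real.rpow_pos_of_pos hn0 _
  have hfin2 : (n : ℝ) * K1 ≤ n * (x / 8 * n) := by
    refine mul_le_mul_of_nonneg_left (hK1L.trans hnum1) hn0.le
  have hfin3 : κ / 2 * (n : ℝ) ^ 2 ≤ n * (x / 8 * n) +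
      s * (2 * ((n : ℝ) ^ (ε / 4) * (L + 1) ^ 2)) := by
    nlinarith
  have hfin4 : x * (n : ℝ) ^ 2 ≤ s * ((n : ℝ) ^ (ε / 4) * (16 * (L + 1) ^ 2)) := by
    have h1 : x / 2 * (n : ℝ) ^ 2 ≤ κ / 2 * (n : ℝ) ^ 2 :=
      mul_le_mul_of_nonneg_right (by linarith) (by positivity)
    have h2 : (0 : ℝ) ≤ s * ((n : ℝ) ^ (ε / 4) * (L + 1) ^ 2) := by positivity
    nlinarith
  have hfin5 : x * (n : ℝ) ^ 2 ≤ s * ((n : ℝ) ^ (ε / 4) * (n : ℝ) ^ (ε / 4)) :=
    hfin4.trans (mul_le_mul_of_nonneg_left (mul_le_mul_of_nonneg_left hnum2 hne2)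
      (Nat.cast_nonneg _))
  calc (n : ℝ) ^ (2 - ε) ≤ (n : ℝ) ^ (2 - (ε / 8 + ε / 4 + ε / 4)) :=
        Real.rpow_le_rpow_of_exponent_le hn1 (by linarith)
    _ = (x * (n : ℝ) ^ 2) / ((n : ℝ) ^ (ε / 4) * (n : ℝ) ^ (ε / 4)) := by
        rw [hx, ← Real.rpow_natCast (n : ℝ) 2, ← Real.rpow_add hn0, ← Real.rpow_add hn0,
          ← Real.rpow_sub hn0]
        congr 1
        push_cast
        ring
    _ ≤ s := by
        rw [div_le_iff₀ (by positivity)]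
        exact hfin5

end Pool.H22.MC
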