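import Pool.Agent.H22.MC.Key

set_option autoImplicit false

/-!
# [H22 MC Pa] The parameters
-/

namespace Pool.H22.MC

open Pool.Agent.H58.OVAC (av pr Str Off)

/-- the parameters: `l = clog 2 n`, `D = k (2 l + 5)`, `1 ≤ b ≤ l / C` -/
theorem params {ε : ℝ} (hε : 0 < ε) {k : ℕ} (hk : 3 ≤ k) : ∃ C n₁ : ℕ, 1 ≤ C ∧
    ∀ n ≥ n₁, ∀ b : ℝ, 1 ≤ b → b * C ≤ Nat.clog 2 n →
      (∃ d : ℕ, 16 * Real.exp (16 * (2 * b + 2)) ≤ ((k : ℝ) - 1) ^ d ∧
        512 * ((low k (k * (2 * Nat.clog 2 n + 5)) d).card : ℝ) ^ 2 * (k : ℝ) ^ (2 * d) / n ≤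
          1 / 32) ∧
      (n : ℝ) ^ (-(ε / 8)) ≤ Real.exp (-(32 * (2 * b + 2))) / 2 ∧
      1 / (C : ℝ) ^ b ≤ Real.exp (-(32 * (2 * b + 2))) / 8 := by
  have hk3 : (3 : ℝ) ≤ k := by exact_mod_cast hk
  set A : ℝ := Real.log (56 * (k : ℝ) ^ 3) with hA
  have hA0 : 0 < A := Real.log_pos (by nlinarith [sq_nonneg ((k : ℝ) - 3), pow_pos (show (0 : ℝ) < k by linarith) 3])
  obtain ⟨C, hC⟩ := exists_nat_ge (4040 * A + 4096 / ε + 8 * Real.exp 128)
  have hC1 : 4040 * A ≤ C := by
    have h1 : 0 < 4096 / ε := by positivity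
    have h2 := Real.exp_pos 128
    linarith
  have hC2 : 4096 / ε ≤ C := by
    have h2 := Real.exp_pos 128
    linarith
  have hC3 : 8 * Real.exp 128 ≤ C := by
    have h1 : 0 < 4096 / ε := by positivity
    linarith
  have hC0 : (1 : ℝ) ≤ C := by
    have h2 := Real.one_le_exp (show (0 : ℝ) ≤ 128 by norm_num)
    linarith
  have hCpos : (0 : ℝ) < C := by linarith
  obtain ⟨l₁, hl₁⟩ := exists_nat_ge (32 / ε + 40)
  refine ⟨C, 2 ^ l₁, by exact_mod_cast hC0, ?_⟩
  intro n hn b hb hbC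
  set l : ℕ := Nat.clog 2 n with hl
  have hl1 : l₁ ≤ l := by
    rw [hl]
    have h1 := Nat.clog_mono_right 2 hn
    rwa [Nat.clog_pow 2 l₁ (by norm_num)] at h1
  have hl1' : 32 / ε + 40 ≤ l := hl₁.trans (by exact_mod_cast hl1)
  have hlε : 32 / ε ≤ l := by linarith
  have hl40 : (40 : ℝ) ≤ l := by
    have : 0 < 32 / ε := by positivity
    linarith
  have hl40' : 40 ≤ l := by exact_mod_cast hl40
  have hnpos : 0 < n := lt_of_lt_of_le (by positivity) hn
  have hn0 : (0 : ℝ) < n := by exact_mod_cast hnpos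
  -- `2 ^ (l - 1) < n`
  have hnl : (2 : ℝ) ^ (l - 1) < n := by
    have h1 : 2 ^ (l - 1) < n := by
      by_contra h2
      have h3 := Nat.clog_le_of_le_pow (not_lt.1 h2)
      omega
    exact_mod_cast h1
  have hlog2 := Real.log_two_gt_d9
  have hlogn : ((l : ℝ) - 1) * Real.log 2 ≤ Real.log n := by
    have h1 := Real.log_le_log (by positivity) hnl.le
    rw [Real.log_pow, Nat.cast_sub (by omega)] at h1
    exact_mod_cast h1
  have hbl : b ≤ l / C := by
    rw [le_div_iff₀ hCpos]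
    exact hbC
  refine ⟨⟨⌈50 * (b + 1)⌉₊, ?_, ?_⟩, ?_, ?_⟩
  · -- the degree is large enough
    have h1 : 50 * (b + 1) ≤ (⌈50 * (b + 1)⌉₊ : ℝ) := Nat.le_ceil _
    have h2 : (2 : ℝ) ^ ⌈50 * (b + 1)⌉₊ ≤ ((k : ℝ) - 1) ^ ⌈50 * (b + 1)⌉₊ :=
      pow_le_pow_left₀ (by norm_num) (by linarith) _
    refine le_trans ?_ h2
    have h3 : (2 : ℝ) ^ ⌈50 * (b + 1)⌉₊ = Real.exp (Real.log 2 * (⌈50 * (b + 1)⌉₊ : ℝ)) := by
      rw [mul_comm (Real.log 2), ← Real.log_pow, Real.exp_log (by positivity)]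
    have h4 : (16 : ℝ) = Real.exp (4 * Real.log 2) := by
      rw [show (4 : ℝ) * Real.log 2 = Real.log (2 ^ 4) by rw [Real.log_pow]; norm_num,
        Real.exp_log (by norm_num)]
      norm_num
    rw [h3]
    nth_rewrite 1 [h4]
    rw [← Real.exp_add]
    refine Real.exp_le_exp.2 ?_
    have h5 : Real.log 2 * (50 * (b + 1)) ≤ Real.log 2 * (⌈50 * (b + 1)⌉₊ : ℝ) :=
      mul_le_mul_of_nonneg_left h1 (by linarith)
    nlinarith
  · -- the number of indices is small
    set d : ℕ := ⌈50 * (b + 1)⌉₊ with hd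
    have hd1 : (d : ℝ) ≤ 101 * b := by
      have h1 : (d : ℝ) < 50 * (b + 1) + 1 := Nat.ceil_lt_add_one (by positivity)
      linarith
    set D : ℕ := k * (2 * l + 5) with hD
    have hDl : (k : ℝ) * (1 / (56 * (k : ℝ) ^ 2)) * D ≤ l / 8 := by
      rw [hD]
      push_cast
      rw [mul_one_div, div_mul_eq_mul_div, div_le_iff₀ (by positivity)]
      nlinarith
    have h1 := card_low (k := k) (D := D) (x := 1 / (56 * (k : ℝ) ^ 2)) (by positivity) (by
      rw [div_le_one (by positivity)]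
      nlinarith) d
    have h2 : ((low k D d).card : ℝ) ≤ (56 * (k : ℝ) ^ 2) ^ d * Real.exp (l / 8) := by
      refine h1.trans ?_
      rw [one_div_one_div]
      exact mul_le_mul_of_nonneg_left (Real.exp_le_exp.2 hDl) (by positivity)
    have h3 : ((low k D d).card : ℝ) ^ 2 * (k : ℝ) ^ (2 * d) ≤
        (56 * (k : ℝ) ^ 3) ^ (2 * d) * Real.exp (l / 4) := by
      have h4 : ((low k D d).card : ℝ) ^ 2 ≤ ((56 * (k : ℝ) ^ 2) ^ d * Real.exp (l / 8)) ^ 2 :=
        pow_le_pow_left₀ (Nat.cast_nonneg _) h2 2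
      refine (mul_le_mul_of_nonneg_right h4 (by positivity)).trans (le_of_eq ?_)
      have h5 : Real.exp ((l : ℝ) / 4) = Real.exp (l / 8) ^ 2 := by
        rw [← Real.exp_nat_mul]
        congr 1
        push_cast
        ring
      rw [h5, mul_pow, ← pow_mul, mul_comm d 2]
      have h6 : (56 * (k : ℝ) ^ 3) ^ (2 * d) = (56 * (k : ℝ) ^ 2) ^ (2 * d) * (k : ℝ) ^ (2 * d) := by
        rw [← mul_pow]
        ring
      rw [h6]
      ring
    have h4 : (56 * (k : ℝ) ^ 3) ^ (2 * d) ≤ Real.exp (l / 20) := by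
      have h5 : (56 * (k : ℝ) ^ 3) ^ (2 * d) = Real.exp (((2 * d : ℕ) : ℝ) * A) := by
        rw [hA, ← Real.log_pow, Real.exp_log (by positivity)]
      rw [h5]
      refine Real.exp_le_exp.2 ?_
      push_cast
      have h6 : 2 * (d : ℝ) * A ≤ 202 * b * A := by nlinarith
      have h7 : 202 * b * A ≤ l / 20 := by
        have h8 : b * (4040 * A) ≤ b * C := mul_le_mul_of_nonneg_left hC1 (by linarith)
        linarith
      linarith
    have h5 : ((low k D d).card : ℝ) ^ 2 * (k : ℝ) ^ (2 * d) ≤ Real.exp (3 / 10 * l) := by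
      refine h3.trans ?_
      calc (56 * (k : ℝ) ^ 3) ^ (2 * d) * Real.exp (l / 4) ≤
          Real.exp (l / 20) * Real.exp (l / 4) :=
            mul_le_mul_of_nonneg_right h4 (Real.exp_pos _).le
        _ = Real.exp (3 / 10 * l) := by
            rw [← Real.exp_add]
            congr 1
            ring
    rw [div_le_iff₀ hn0]
    have h6 : 16384 * Real.exp (3 / 10 * l) ≤ n := by
      have h7 : (16384 : ℝ) = Real.exp (14 * Real.log 2) := by
        rw [show (14 : ℝ) * Real.log 2 = Real.log (2 ^ 14) by rw [Real.log_pow]; norm_num,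
          Real.exp_log (by norm_num)]
        norm_num
      rw [h7, ← Real.exp_add]
      have h8 : Real.exp (14 * Real.log 2 + 3 / 10 * l) ≤ Real.exp (Real.log n) := by
        refine Real.exp_le_exp.2 (le_trans ?_ hlogn)
        have := Real.log_two_lt_d9
        nlinarith
      rwa [Real.exp_log hn0] at h8
    rw [mul_assoc]
    linarith
  · -- the second condition
    have h1 : Real.exp (-(32 * (2 * b + 2))) / 2 =
        Real.exp (-(32 * (2 * b + 2)) - Real.log 2) := by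
      rw [Real.exp_sub, Real.exp_log (by norm_num)]
    rw [h1, Real.rpow_def_of_pos hn0]
    refine Real.exp_le_exp.2 ?_
    have h2 : 128 * b ≤ ε * l / 32 := by
      have h3 : b * (4096 / ε) ≤ b * C := mul_le_mul_of_nonneg_left hC2 (by linarith)
      have h4 : b * (4096 / ε) ≤ l := h3.trans hbC
      have h5 : b * 4096 ≤ l * ε := by
        rw [mul_div_assoc', div_le_iff₀ hε] at h4
        exact h4
      linarith
    have h3 : 1 ≤ ε * l / 32 := by
      rw [div_le_iff₀ hε] at hlε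
      linarith
    have h4 : (l : ℝ) / 2 ≤ Real.log n := by nlinarith
    have h5 := Real.log_two_lt_d9
    nlinarith
  · -- the third condition
    rw [div_le_iff₀ (by positivity)]
    have h1 : (8 * Real.exp 128) ^ b ≤ (C : ℝ) ^ b :=
      Real.rpow_le_rpow (by positivity) hC3 (by linarith)
    have h2 : (8 * Real.exp 128) ^ b = (8 : ℝ) ^ b * Real.exp (128 * b) := by
      rw [Real.mul_rpow (by norm_num) (Real.exp_pos _).le, ← Real.exp_mul]
    have h3 : (8 : ℝ) ≤ (8 : ℝ) ^ b := by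
      calc (8 : ℝ) = (8 : ℝ) ^ (1 : ℝ) := (Real.rpow_one _).symm
        _ ≤ _ := Real.rpow_le_rpow_of_exponent_le (by norm_num) hb
    have h4 : Real.exp (32 * (2 * b + 2)) ≤ Real.exp (128 * b) :=
      Real.exp_le_exp.2 (by linarith)
    have h5 : 8 * Real.exp (32 * (2 * b + 2)) ≤ (C : ℝ) ^ b := by
      refine le_trans ?_ h1
      rw [h2]
      exact mul_le_mul h3 h4 (Real.exp_pos _).le (by positivity)
    have h6 : Real.exp (-(32 * (2 * b + 2))) * Real.exp (32 * (2 * b + 2)) = 1 := by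
      rw [← Real.exp_add]
      simp
    calc (1 : ℝ) = Real.exp (-(32 * (2 * b + 2))) / 8 * (8 * Real.exp (32 * (2 * b + 2))) := by
          linear_combination -h6
      _ ≤ _ := mul_le_mul_of_nonneg_left h5 (by positivity)

end Pool.H22.MC
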