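import Pool.Agent.H58.OVAC.Avg

set_option autoImplicit false

/-!
# [H22 MC Typ] Sampled Gram matrices of few bounded functions

`φ α : V → ℝ` (`α ∈ I`) are functions with `φ α ^ 2 ≤ B`. For `z : Fin n → V` (a sample) the sampled Gram matrix is
`(1/n) ∑ x, φ α (z x) φ β (z x)`.
-/

namespace Pool.H22.MC

open Pool.Agent.H58.OVAC (av pr)

variable {ι V : Type} [Fintype V] {n : ℕ}

/-- the error of the sampled Gram matrix -/
noncomputable def gram (φ : ι → V → ℝ) (z : Fin n → V) (α β : ι) : ℝ :=
  (∑ x, φ α (z x) * φ β (z x)) / n - av fun a => φ α a * φ β a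

open Pool.Agent.H58.OVAC (av_congr av_sum av_mul_left av_mono av_const av_nonneg av_add av_sub av_mul_right)

private theorem av_pi (F : Fin n → V → ℝ) : av (fun z : Fin n → V => ∏ i, F i (z i)) = ∏ i, av (F i) := by
  classical
  unfold av
  have h1 := Finset.prod_univ_sum (fun _ : Fin n => (Finset.univ : Finset V)) F
  rw [Fintype.piFinset_univ] at h1
  rw [← h1, Finset.prod_div_distrib, Finset.prod_const, Finset.card_univ, Fintype.card_fin, Fintype.card_fun,
    Fintype.card_fin]
  push_cast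
  rfl

private theorem av_one' [Nonempty V] (h : V → ℝ) (x : Fin n) : av (fun z : Fin n → V => h (z x)) = av h := by
  classical
  have h1 := av_pi (n := n) (fun i a => if i = x then h a else 1)
  have h2 : ∀ z : Fin n → V, (∏ i, (fun i a => if i = x then h a else 1) i (z i)) = h (z x) := by
    intro z
    simp
  rw [av_congr h2] at h1
  rw [h1]
  have h3 : ∀ i, av (fun a => if i = x then h a else 1) = if i = x then av h else 1 := by
    intro i
    split_ifs
    · rfl
    · exact av_const 1
  simp only [h3]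
  simp

private theorem av_two [Nonempty V] (g h : V → ℝ) {x y : Fin n} (hxy : x ≠ y) :
    av (fun z : Fin n → V => g (z x) * h (z y)) = av g * av h := by
  classical
  have h1 := av_pi (n := n) (fun i a => (if i = x then g a else 1) * (if i = y then h a else 1))
  have h2 : ∀ z : Fin n → V, (∏ i, (fun i a => (if i = x then g a else 1) * (if i = y then h a else 1)) i (z i)) =
      g (z x) * h (z y) := by
    intro z
    simp only [Finset.prod_mul_distrib]
    simp
  rw [av_congr h2] at h1
  rw [h1]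
  have h3 : ∀ i, av (fun a => (if i = x then g a else 1) * (if i = y then h a else 1)) =
      (if i = x then av g else 1) * (if i = y then av h else 1) := by
    intro i
    by_cases h4 : i = x
    · have h5 : ¬ i = y := fun h6 => hxy (h4.symm.trans h6)
      simp [h4, hxy]
    · by_cases h5 : i = y
      · simp [h4, h5, hxy.symm]
      · simp only [h4, h5, if_false, mul_one]
        exact av_const 1
  simp only [h3, Finset.prod_mul_distrib]
  simp

private theorem gram_sq [Nonempty V] (hn : 0 < n) (φ : ι → V → ℝ) {B : ℝ} {α β : ι}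
    (hα : ∀ a, φ α a ^ 2 ≤ B) (hβ : ∀ a, φ β a ^ 2 ≤ B) :
    av (fun z : Fin n → V => gram φ z α β ^ 2) ≤ B ^ 2 / n := by
  classical
  have hn' : (0 : ℝ) < n := by exact_mod_cast hn
  obtain ⟨m, hm⟩ : ∃ m : ℝ, m = av fun a => φ α a * φ β a := ⟨_, rfl⟩
  obtain ⟨f, hf⟩ : ∃ f : V → ℝ, f = fun a => φ α a * φ β a - m := ⟨_, rfl⟩
  have hf0 : av f = 0 := by
    rw [hf, av_sub, av_const, ← hm, sub_self]
  have hf2 : av (fun a => f a * f a) ≤ B ^ 2 := by
    have e1 : av (fun a => f a * f a) = av (fun a => (φ α a * φ β a) * (φ α a * φ β a)) - m * m := by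
      have e2 : ∀ a, f a * f a = (φ α a * φ β a) * (φ α a * φ β a) - 2 * m * f a - m * m := by
        intro a
        rw [hf]
        ring
      rw [av_congr e2, av_sub, av_sub, av_const, av_mul_left, hf0, mul_zero, sub_zero]
    rw [e1]
    have e3 : av (fun a => (φ α a * φ β a) * (φ α a * φ β a)) ≤ B ^ 2 := by
      refine Pool.Agent.H58.OVAC.av_le fun a => ?_
      have e4 : (φ α a * φ β a) * (φ α a * φ β a) = φ α a ^ 2 * φ β a ^ 2 := by ring
      rw [e4, sq B]
      exact mul_le_mul (hα a) (hβ a) (sq_nonneg _) ((sq_nonneg _).trans (hα a))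
    have e5 := mul_self_nonneg m
    linarith
  have hg : ∀ z : Fin n → V, gram φ z α β ^ 2 = (1 / (n : ℝ) ^ 2) * ∑ x, ∑ y, f (z x) * f (z y) := by
    intro z
    have e1 : gram φ z α β = (∑ x, f (z x)) / n := by
      unfold gram
      rw [← hm, hf]
      rw [Finset.sum_sub_distrib, Finset.sum_const, Finset.card_univ, Fintype.card_fin, nsmul_eq_mul]
      field_simp
    rw [e1, div_pow, sq (∑ x, f (z x)), Finset.sum_mul_sum]
    ring
  rw [av_congr hg, av_mul_left, av_sum]
  have hxy : ∀ x : Fin n, av (fun z : Fin n → V => ∑ y, f (z x) * f (z y)) = av fun a => f a * f a := by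
    intro x
    rw [av_sum, Finset.sum_eq_single x]
    · exact av_one' (fun a => f a * f a) x
    · intro y _ hy
      rw [av_two f f hy.symm, hf0, zero_mul]
    · intro h
      exact absurd (Finset.mem_univ x) h
  rw [Finset.sum_congr rfl fun x _ => hxy x, Finset.sum_const, Finset.card_univ, Fintype.card_fin, nsmul_eq_mul]
  have e6 : 1 / (n : ℝ) ^ 2 * (n * av fun a => f a * f a) = (av fun a => f a * f a) / n := by
    field_simp
  rw [e6]
  exact div_le_div_of_nonneg_right hf2 hn'.le

/-- **Typical samples.** Second moment method: `E (gram α β)^2 ≤ B^2 / n` (the sum over `x ≠ y` vanishes: the coordinates of a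
uniform `z : Fin n → V` are independent), and Markov. -/
theorem typ_le [Nonempty V] (hn : 0 < n) (I : Finset ι) (φ : ι → V → ℝ) {B θ : ℝ} (hθ : 0 < θ)
    (hB : ∀ α ∈ I, ∀ a, φ α a ^ 2 ≤ B) :
    pr (fun z : Fin n → V => θ ^ 2 < ∑ α ∈ I, ∑ β ∈ I, gram φ z α β ^ 2) ≤
      (I.card : ℝ) ^ 2 * B ^ 2 / (n * θ ^ 2) := by
  classical
  obtain ⟨S, hS⟩ : ∃ S : (Fin n → V) → ℝ, S = fun z => ∑ α ∈ I, ∑ β ∈ I, gram φ z α β ^ 2 := ⟨_, rfl⟩
  have hS0 : ∀ z, 0 ≤ S z := by
    intro z
    rw [hS]
    exact Finset.sum_nonneg fun _ _ => Finset.sum_nonneg fun _ _ => sq_nonneg _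
  have hθ2 : 0 < θ ^ 2 := by positivity
  have hn' : (0 : ℝ) < n := by exact_mod_cast hn
  -- Markov
  have h1 : pr (fun z : Fin n → V => θ ^ 2 < S z) ≤ (1 / θ ^ 2) * av S := by
    unfold pr
    rw [← av_mul_left]
    refine av_mono fun z => ?_
    split_ifs with h2
    · rw [one_div_mul_eq_div, le_div_iff₀ hθ2, one_mul]
      exact h2.le
    · have := hS0 z
      positivity
  have h2 : av S ≤ (I.card : ℝ) ^ 2 * (B ^ 2 / n) := by
    rw [hS, av_sum]
    have h3 : ∀ α ∈ I, av (fun z : Fin n → V => ∑ β ∈ I, gram φ z α β ^ 2) ≤ I.card * (B ^ 2 / n) := by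
      intro α hα
      rw [av_sum]
      refine (Finset.sum_le_sum fun β hβ => gram_sq hn φ (hB α hα) (hB β hβ)).trans (le_of_eq ?_)
      rw [Finset.sum_const, nsmul_eq_mul]
    refine (Finset.sum_le_sum h3).trans (le_of_eq ?_)
    rw [Finset.sum_const, nsmul_eq_mul]
    ring
  have h4 : pr (fun z : Fin n → V => θ ^ 2 < ∑ α ∈ I, ∑ β ∈ I, gram φ z α β ^ 2) = pr (fun z : Fin n → V => θ ^ 2 < S z) := by
    rw [hS]
  rw [h4]
  refine h1.trans ((mul_le_mul_of_nonneg_left h2 (by positivity)).trans (le_of_eq ?_))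
  field_simp

end Pool.H22.MC
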